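import Mathlib.Data.Int.Star
import Mathlib.Algebra.Order.Chebyshev
import Mathlib.Algebra.Ring.IsFormallyReal
import Mathlib.Analysis.Calculus.Deriv.Polynomial
import Mathlib.Analysis.Calculus.Deriv.Inv
import Mathlib.Analysis.Calculus.Deriv.MeanValue
import Mathlib.Analysis.Polynomial.Basic
import Mathlib.Combinatorics.SimpleGraph.Coloring.Vertex
import Mathlib.Combinatorics.SimpleGraph.LapMatrix
import Mathlib.RingTheory.SimpleRing.Principal
import Mathlib.Tactic.Polynomial.Basic

-- ======== part 0: formerly Pool.Agent.MP_df0aa7_co.h16.Cnt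
section MrgPart0

set_option autoImplicit false
open Finset

namespace Pool.Agent.MP_df0aa7_co.h16

variable {V : Type} [Fintype V] [DecidableEq V]

/-- the relation `R`, seen as a zero-one matrix, has norm at most `ρ` -/
def OpB (R : V → V → Prop) [DecidableRel R] (ρ : ℝ) : Prop :=
  ∀ c : V → ℝ, ∑ v, (∑ u, if R u v then c u else 0) ^ 2 ≤ ρ ^ 2 * ∑ u, c u ^ 2

def seqs (R : ℕ → V → V → Prop) [∀ i, DecidableRel (R i)] (a : V) (m : ℕ) (v : V) :
    Finset (Fin (m + 1) → V) :=
  univ.filter fun x => x 0 = a ∧ x (Fin.last m) = v ∧ ∀ i : Fin m, R i (x i.castSucc) (x i.succ)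

theorem seqs_succ (R : ℕ → V → V → Prop) [∀ i, DecidableRel (R i)] (a : V) (m : ℕ) (v : V) :
    ((seqs R a (m + 1) v).card : ℝ) ≤ ∑ u, if R m u v then ((seqs R a m u).card : ℝ) else 0 := by
  rw [card_eq_sum_card_fiberwise (f := fun x : Fin (m + 1 + 1) → V => x (Fin.last m).castSucc)
    (t := univ) (fun _ _ => mem_coe.2 (mem_univ _))]
  push_cast
  refine Finset.sum_le_sum fun u _ => ?_
  split_ifs with h
  · refine Nat.cast_le.2 (card_le_card_of_injOn (fun x => Fin.init x) ?_ ?_)
    · intro x hx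
      simp only [seqs, coe_filter, mem_filter, mem_univ, true_and, Set.mem_ofPred_eq] at hx ⊢
      obtain ⟨⟨a1, -, a3⟩, a4⟩ := hx
      refine ⟨a1, a4, fun i => ?_⟩
      exact a3 i.castSucc
    · intro x hx y hy hxy
      simp only [seqs, coe_filter, mem_filter, mem_univ, true_and, Set.mem_ofPred_eq] at hx hy
      funext i
      refine Fin.lastCases ?_ (fun j => ?_) i
      · rw [hx.1.2.1, hy.1.2.1]
      · exact congrFun hxy j
  · rw [Nat.cast_nonpos, card_eq_zero, eq_empty_iff_forall_notMem]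
    intro x hx
    simp only [seqs, mem_filter, mem_univ, true_and] at hx
    obtain ⟨⟨-, a2, a3⟩, a4⟩ := hx
    have := a3 (Fin.last m)
    rw [a4, Fin.succ_last, a2] at this
    exact h this

theorem seqs_sq (R : ℕ → V → V → Prop) [∀ i, DecidableRel (R i)] {ρ : ℝ}
    (hR : ∀ i, OpB (R i) ρ) (a : V) (m : ℕ) :
    ∑ v, ((seqs R a m v).card : ℝ) ^ 2 ≤ (ρ ^ m) ^ 2 := by
  induction m with
  | zero =>
    rw [Finset.sum_eq_single a]
    · have : (seqs R a 0 a).card ≤ 1 := card_le_one.2 fun x hx y hy => by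
        simp only [seqs, mem_filter] at hx hy
        funext i
        rw [Subsingleton.elim (α := Fin 1) i 0, hx.2.1, hy.2.1]
      have h2 : ((seqs R a 0 a).card : ℝ) ≤ 1 := by exact_mod_cast this
      have h3 : (0 : ℝ) ≤ (seqs R a 0 a).card := by positivity
      nlinarith
    · intro v _ hv
      have : seqs R a 0 v = ∅ := eq_empty_iff_forall_notMem.2 fun x hx => by
        simp only [seqs, mem_filter] at hx
        exact hv (hx.2.2.1.symm.trans hx.2.1)
      simp [this]
    · simp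
  | succ m ih =>
    calc ∑ v, ((seqs R a (m + 1) v).card : ℝ) ^ 2
        ≤ ∑ v, (∑ u, if R m u v then ((seqs R a m u).card : ℝ) else 0) ^ 2 :=
          Finset.sum_le_sum fun v _ => pow_le_pow_left₀ (by positivity) (seqs_succ R a m v) 2
      _ ≤ ρ ^ 2 * ∑ u, ((seqs R a m u).card : ℝ) ^ 2 := hR m _
      _ ≤ ρ ^ 2 * (ρ ^ m) ^ 2 := mul_le_mul_of_nonneg_left ih (sq_nonneg _)
      _ = (ρ ^ (m + 1)) ^ 2 := by ring

theorem seqs_le (R : ℕ → V → V → Prop) [∀ i, DecidableRel (R i)] {ρ : ℝ} (hρ : 0 ≤ ρ)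
    (hR : ∀ i, OpB (R i) ρ) (a : V) (m : ℕ) (v : V) : ((seqs R a m v).card : ℝ) ≤ ρ ^ m := by
  have h1 : ((seqs R a m v).card : ℝ) ^ 2 ≤ (ρ ^ m) ^ 2 :=
    le_trans (Finset.single_le_sum (f := fun v => ((seqs R a m v).card : ℝ) ^ 2)
      (fun _ _ => sq_nonneg _) (mem_univ v)) (seqs_sq R hR a m)
  exact le_of_sq_le_sq h1 (by positivity)

theorem OpB_eq {ρ : ℝ} (hρ : 1 ≤ ρ) : OpB (fun u v : V => u = v) ρ := by
  intro c
  simp only [Finset.sum_ite_eq', mem_univ, if_true]
  have h1 : 0 ≤ ∑ u, c u ^ 2 := Finset.sum_nonneg fun _ _ => sq_nonneg _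
  have h2 : 1 ≤ ρ ^ 2 := one_le_pow₀ hρ
  nlinarith

omit [DecidableEq V] in
theorem OpB_of_quad (R : V → V → Prop) [DecidableRel R] (hs : ∀ u v, R u v → R v u) {ρ : ℝ}
    (hρ : 0 < ρ)
    (hq : ∀ x : V → ℝ, (∀ v, 0 ≤ x v) →
      ∑ v, ∑ u, (if R u v then x u * x v else 0) ≤ ρ * ∑ u, x u ^ 2) : OpB R ρ := by
  intro c
  let Q : (V → ℝ) → (V → ℝ) → ℝ := fun x y => ∑ v, ∑ u, if R u v then x u * y v else 0
  have hsym : ∀ x y, Q x y = Q y x := fun x y => by
    simp only [Q]
    rw [Finset.sum_comm]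
    refine Finset.sum_congr rfl fun u _ => Finset.sum_congr rfl fun v _ => ?_
    by_cases h : R u v
    · simp [h, hs _ _ h, mul_comm]
    · have h' : ¬ R v u := fun h' => h (hs _ _ h')
      simp [h, h']
  have habs : ∀ z : V → ℝ, |Q z z| ≤ ρ * ∑ u, z u ^ 2 := fun z => by
    have h1 := hq (fun v => |z v|) (fun v => abs_nonneg _)
    simp only [sq_abs] at h1
    refine le_trans ?_ h1
    refine (Finset.abs_sum_le_sum_abs _ _).trans (Finset.sum_le_sum fun v _ => ?_)
    refine (Finset.abs_sum_le_sum_abs _ _).trans (Finset.sum_le_sum fun u _ => ?_)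
    split_ifs
    · rw [abs_mul]
    · simp
  let y : V → ℝ := fun v => ∑ u, if R u v then c u else 0
  have hy : Q c y = ∑ v, y v ^ 2 := by
    refine Finset.sum_congr rfl fun v _ => ?_
    rw [sq]
    conv_rhs => enter [1]; simp only [y]
    rw [Finset.sum_mul]
    refine Finset.sum_congr rfl fun u _ => ?_
    split_ifs <;> simp
  have hpol : Q (fun v => ρ * c v + y v) (fun v => ρ * c v + y v) -
      Q (fun v => ρ * c v - y v) (fun v => ρ * c v - y v) = 2 * ρ * (Q c y + Q y c) := by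
    simp only [Q, ← Finset.sum_sub_distrib, ← Finset.sum_add_distrib, Finset.mul_sum]
    refine Finset.sum_congr rfl fun v _ => Finset.sum_congr rfl fun u _ => ?_
    split_ifs <;> ring
  have h1 := (abs_le.1 (habs fun v => ρ * c v + y v)).2
  have h2 := (abs_le.1 (habs fun v => ρ * c v - y v)).1
  have h3 : ∑ u, (ρ * c u + y u) ^ 2 + ∑ u, (ρ * c u - y u) ^ 2 =
      2 * (ρ ^ 2 * ∑ u, c u ^ 2) + 2 * ∑ u, y u ^ 2 := by
    simp only [← Finset.sum_add_distrib, Finset.mul_sum]
    exact Finset.sum_congr rfl fun u _ => by ring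
  rw [hsym y c, hy] at hpol
  show ∑ v, y v ^ 2 ≤ _
  have h4 : ρ * (4 * ∑ v, y v ^ 2) ≤ ρ * (2 * (ρ ^ 2 * ∑ u, c u ^ 2) + 2 * ∑ u, y u ^ 2) := by
    rw [← h3]; linarith
  have := le_of_mul_le_mul_left h4 hρ
  linarith

end Pool.Agent.MP_df0aa7_co.h16

end MrgPart0

-- ======== part 1: formerly Pool.Agent.MP_df0aa7_co.h16.Glue
section MrgPart1

set_option autoImplicit false
open Finset

namespace Pool.Agent.MP_df0aa7_co.h16

theorem inv_of_even {α β : Type} [DecidableEq α] [DecidableEq β] (f : α → β) (X : Finset α) :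
    (∀ y, Even (X.filter fun x => f x = y).card) →
    ∃ m : α → α, ∀ x ∈ X, m x ∈ X ∧ m x ≠ x ∧ m (m x) = x ∧ f (m x) = f x := by
  induction X using Finset.strongInduction with
  | H X ih =>
  intro h
  rcases X.eq_empty_or_nonempty with rfl | ⟨x, hx⟩
  · exact ⟨id, by simp⟩
  have h1 : 1 < (X.filter fun z => f z = f x).card := by
    have a1 : 0 < (X.filter fun z => f z = f x).card := card_pos.2 ⟨x, by simp [hx]⟩
    obtain ⟨k, hk⟩ := h (f x)
    omega
  obtain ⟨x', hx', hne⟩ := exists_mem_ne h1 x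
  obtain ⟨hx'X, hf⟩ := mem_filter.1 hx'
  have hss : (X.erase x).erase x' ⊂ X :=
    lt_of_le_of_lt (erase_subset _ _) (erase_ssubset hx)
  obtain ⟨m, hm⟩ := ih _ hss (fun y => by
    rw [filter_erase, filter_erase]
    by_cases hy : f x = y
    · obtain ⟨k, hk⟩ := h y
      rw [card_erase_of_mem (mem_erase.2 ⟨hne, mem_filter.2 ⟨hx'X, hf.trans hy⟩⟩),
        card_erase_of_mem (mem_filter.2 ⟨hx, hy⟩), hk]
      subst hy
      exact ⟨k - 1, by omega⟩
    · rw [erase_eq_of_notMem, erase_eq_of_notMem]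
      · exact h y
      · simp [hy]
      · simp [hf, hy])
  refine ⟨fun z => if z = x then x' else if z = x' then x else m z, fun z hz => ?_⟩
  by_cases c1 : z = x
  · subst c1; simp [hne, hx'X, hf]
  · by_cases c2 : z = x'
    · subst c2; simp [hne, hx, hf, Ne.symm hne]
    · obtain ⟨a1, a2, a3, a4⟩ := hm z (mem_erase.2 ⟨c2, mem_erase.2 ⟨c1, hz⟩⟩)
      obtain ⟨b1, b2⟩ := mem_erase.1 a1
      obtain ⟨b3, b4⟩ := mem_erase.1 b2
      simp [c1, c2, b1, b3, b4, a2, a3, a4]

theorem not_sameCycle {H : Type} (i m : Equiv.Perm H) (hi : i * i = 1) (hm : m * m = 1)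
    (hi' : ∀ h, i h ≠ h) (hm' : ∀ h, m h ≠ h) (h : H) : ¬ (i * m).SameCycle h (i h) := by
  rintro ⟨k, hk⟩
  have hinv : (i * m)⁻¹ = m * i := by
    rw [mul_inv_rev, inv_eq_of_mul_eq_one_right hi, inv_eq_of_mul_eq_one_right hm]
  have hsc : SemiconjBy i (i * m) (i * m)⁻¹ := by
    rw [hinv, SemiconjBy, ← mul_assoc, hi, mul_assoc, hi, one_mul, mul_one]
  have key : ∀ j : ℤ, i (((i * m) ^ j) h) = ((i * m) ^ (k - j)) h := by
    intro j
    have h1 : i * (i * m) ^ j = (i * m) ^ (-j) * i := by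
      have := (hsc.zpow_right j).eq
      rwa [inv_zpow'] at this
    have h2 := congrArg (fun e : Equiv.Perm H => e h) h1
    simp only [Equiv.Perm.mul_apply] at h2
    rw [h2, ← hk, ← Equiv.Perm.mul_apply, ← zpow_add]
    congr 2
    ring
  rcases Int.even_or_odd' k with ⟨j, hj | hj⟩
  · refine hi' (((i * m) ^ j) h) ?_
    rw [key]; congr 2; omega
  · refine hm' (((i * m) ^ j) h) ?_
    have h2 : m (((i * m) ^ j) h) = i (((i * m) ^ (j + 1)) h) := by
      rw [add_comm, zpow_add, zpow_one, ← Equiv.Perm.mul_apply i, ← mul_assoc, ← mul_assoc, hi,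
        one_mul, Equiv.Perm.mul_apply]
    rw [h2, key]; congr 2; omega

/-- orientation of a union of two perfect matchings on `P × Bool` -/
theorem orient {P : Type} [Fintype P] [DecidableEq P] (m : P × Bool → P × Bool)
    (hm : ∀ h, m (m h) = h) (hm' : ∀ h, m h ≠ h) :
    ∃ (τ : Equiv.Perm P) (b : P → Bool), ∀ p, m (p, b p) = (τ p, !b (τ p)) := by
  classical
  let i : Equiv.Perm (P × Bool) := Function.Involutive.toPerm (fun h => (h.1, !h.2))
    (fun h => by simp)
  let m' : Equiv.Perm (P × Bool) := Function.Involutive.toPerm m hm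
  have hi : i * i = 1 := by ext h <;> simp [i]
  have hmm : m' * m' = 1 := by
    refine Equiv.ext fun h => ?_
    simp [m', hm]
  have hns := not_sameCycle i m' hi hmm (fun h hh => by
    have := congrArg Prod.snd hh
    simp [i] at this) (fun h => hm' h)
  let c : P × Bool → Fin _ := fun h =>
    Fintype.equivFin (Quotient (Equiv.Perm.SameCycle.setoid (i * m'))) (Quotient.mk _ h)
  have hc : ∀ h h', c h = c h' ↔ (i * m').SameCycle h h' := fun h h' => by
    simp only [c, Equiv.apply_eq_iff_eq, Quotient.eq]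
    rfl
  have c1 : ∀ h, c ((i * m') h) = c h := fun h =>
    (hc _ _).2 (Equiv.Perm.sameCycle_apply_left.2 (Equiv.Perm.SameCycle.refl _ _))
  have c2 : ∀ h, c (i ((i * m') h)) = c (i h) := fun h => by
    rw [← c1 (i ((i * m') h))]
    congr 1
    simp [i, m', hm]
  let b : P → Bool := fun p => decide (c (p, true) < c (p, false))
  have hb : ∀ h, c h < c (i h) ↔ h.2 = b h.1 := by
    rintro ⟨p, s⟩
    have hne : c (p, true) ≠ c (p, false) := fun h => hns (p, true) ((hc _ _).1 h)
    cases s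
    · simp only [i, b, Function.Involutive.coe_toPerm, Bool.not_false, false_eq_decide_iff, not_lt]
      exact ⟨le_of_lt, fun h => lt_of_le_of_ne h hne.symm⟩
    · simp [i, b]
  have hstep : ∀ p, ((i * m') (p, b p)).2 = b ((i * m') (p, b p)).1 := fun p => by
    rw [← hb, c1, c2, hb]
  let t : P → P := fun p => ((i * m') (p, b p)).1
  have ht : ∀ p, (i * m') (p, b p) = (t p, b (t p)) := fun p => Prod.ext rfl (hstep p)
  have hinj : Function.Injective t := fun p q h => by
    have : (i * m') (p, b p) = (i * m') (q, b q) := by rw [ht, ht, h]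
    exact congrArg Prod.fst ((i * m').injective this)
  refine ⟨Equiv.ofBijective t (Finite.injective_iff_bijective.1 hinj), b, fun p => ?_⟩
  have := congrArg i (ht p)
  rw [← Equiv.Perm.mul_apply, ← mul_assoc, hi, one_mul] at this
  exact this

variable {V : Type} [DecidableEq V] {L : ℕ} [NeZero L]

/-- the step index on which a half edge lies -/
def stp (h : ZMod L × Bool) : ZMod L := if h.2 then h.1 else h.1 - 1

theorem half_even (w : ZMod L → V) (hne : ∀ p, w p ≠ w (p + 1)) (T : Finset (ZMod L))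
    (hT : ∀ e : Sym2 V, Even (T.filter fun p => s(w p, w (p + 1)) = e).card) (v : V) :
    Even ((univ.filter fun h : ZMod L × Bool => stp h ∈ T).filter fun h => w h.1 = v).card := by
  have h1 : ((univ.filter fun h : ZMod L × Bool => stp h ∈ T).filter fun h => w h.1 = v).card =
      (T.filter fun p => v ∈ s(w p, w (p + 1))).card := by
    refine card_bij (fun h _ => stp h) ?_ ?_ ?_
    · rintro ⟨p, s⟩ hh
      simp only [mem_filter, mem_univ, true_and] at hh ⊢
      refine ⟨hh.1, ?_⟩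
      cases s <;> simp [stp, hh.2]
    · rintro ⟨p, s⟩ hh ⟨q, t⟩ hh' h
      simp only [mem_filter, mem_univ, true_and] at hh hh'
      cases s <;> cases t <;> simp only [stp, Bool.false_eq_true, if_false, if_true] at h
      · rw [sub_left_inj.1 h]
      · exfalso; apply hne q; rw [← h, sub_add_cancel, h, hh.2, hh'.2]
      · exfalso; apply hne p; rw [h, sub_add_cancel, ← h, hh.2, hh'.2]
      · rw [h]
    · intro p hp
      obtain ⟨a1, a2⟩ := mem_filter.1 hp
      rcases Sym2.mem_iff.1 a2 with a3 | a3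
      · exact ⟨(p, true), by simp [stp, a1, a3], by simp [stp]⟩
      · exact ⟨(p + 1, false), by simp [stp, a1, a3], by simp [stp]⟩
  rw [h1, card_eq_sum_card_image (fun p => s(w p, w (p + 1)))]
  refine Finset.even_sum _ fun e he => ?_
  obtain ⟨p, hp, rfl⟩ := mem_image.1 he
  have := hT s(w p, w (p + 1))
  rw [filter_filter]
  rw [filter_congr (q := fun q => s(w q, w (q + 1)) = s(w p, w (p + 1)))]
  · exact this
  · exact fun q _ => ⟨fun h => h.2, fun h => ⟨h ▸ (mem_filter.1 hp).2, h⟩⟩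

/-- the combinatorial data of a regluing -/
structure Dat (T : Finset (ZMod L)) (τ : Equiv.Perm (ZMod L)) (b : ZMod L → Bool) : Prop where
  f1 : ∀ p, stp (p, b p) ∉ T → τ p = if b p then p + 1 else p - 1
  f2 : ∀ p, p ∉ T → b (p + 1) = b p

theorem glue (w : ZMod L → V) (hne : ∀ p, w p ≠ w (p + 1)) (T : Finset (ZMod L))
    (hT : ∀ e : Sym2 V, Even (T.filter fun p => s(w p, w (p + 1)) = e).card) :
    ∃ (τ : Equiv.Perm (ZMod L)) (b : ZMod L → Bool), Dat T τ b ∧
      ∀ p, stp (p, b p) ∈ T → w (τ p) = w p := by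
  obtain ⟨m0, hm0⟩ := inv_of_even (fun h : ZMod L × Bool => w h.1) _ (half_even w hne T hT)
  simp only [mem_filter, mem_univ, true_and] at hm0
  let m : ZMod L × Bool → ZMod L × Bool := fun h =>
    if stp h ∈ T then m0 h else if h.2 then (h.1 + 1, false) else (h.1 - 1, true)
  have hm : ∀ h, m (m h) = h := by
    rintro ⟨p, s⟩
    by_cases h : stp (p, s) ∈ T
    · simp [m, h, (hm0 _ h).1, (hm0 _ h).2.2.1]
    · cases s
      · have h' : stp (p - 1, true) ∉ T := h
        simp [m, h, h']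
      · have h' : stp (p + 1, false) ∉ T := by simpa [stp] using h
        simp [m, h, h']
  have hm' : ∀ h, m h ≠ h := by
    rintro ⟨p, s⟩
    by_cases h : stp (p, s) ∈ T
    · simpa [m, h] using (hm0 _ h).2.1
    · cases s <;> simp [m, h]
  obtain ⟨τ, b, hb⟩ := orient m hm hm'
  refine ⟨τ, b, ⟨fun p hp => ?_, fun p hp => ?_⟩, fun p hp => ?_⟩
  · have := congrArg Prod.fst (hb p)
    simp only [m, hp, if_false] at this
    rw [← this]; split_ifs <;> rfl
  · have e1 : m (p, true) = (p + 1, false) := by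
      have h' : stp (p, true) ∉ T := hp
      simp [m, h']
    have e2 : m (p + 1, false) = (p, true) := by rw [← e1, hm]
    cases h1 : b p
    · cases h2 : b (p + 1)
      · rfl
      · have a1 := hb (τ.symm (p + 1))
        rw [Equiv.apply_symm_apply, h2] at a1
        have a2 := congrArg m a1
        rw [hm, Bool.not_true, e2] at a2
        have a3 := congrArg Prod.fst a2
        have a4 := congrArg Prod.snd a2
        simp only at a3 a4
        rw [a3, h1] at a4
        exact absurd a4 (by simp)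
    · have a1 := hb p
      rw [h1, e1] at a1
      have a3 := congrArg Prod.fst a1
      have a4 := congrArg Prod.snd a1
      simp only at a3 a4
      rw [a3]
      simpa using a4
  · have := congrArg Prod.fst (hb p)
    simp only [m, hp, if_true] at this
    rw [← this]; exact (hm0 _ hp).2.2.2

end Pool.Agent.MP_df0aa7_co.h16

end MrgPart1

-- ======== part 2: formerly Pool.Agent.MP_df0aa7_co.h16.Carve
section MrgPart2

set_option autoImplicit false
open Finset

namespace Pool.Agent.MP_df0aa7_co.h16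

variable {V : Type} [Fintype V] [DecidableEq V] (G : SimpleGraph V) [DecidableRel G.Adj]

def ball (a : V) : ℕ → Finset V
  | 0 => {a}
  | r + 1 => ball a r ∪ (ball a r).biUnion (fun u => G.neighborFinset u)

theorem ball_succ {a v : V} {r : ℕ} (h : v ∈ ball G a r) : v ∈ ball G a (r + 1) :=
  mem_union_left _ h

theorem ball_adj {a u v : V} {r : ℕ} (h : u ∈ ball G a r) (huv : G.Adj u v) :
    v ∈ ball G a (r + 1) :=
  mem_union_right _ (mem_biUnion.2 ⟨u, h, by simpa using huv⟩)

theorem ball_cases {a v : V} {r : ℕ} (h : v ∈ ball G a (r + 1)) :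
    v ∈ ball G a r ∨ ∃ u ∈ ball G a r, G.Adj u v := by
  rcases mem_union.1 h with h | h
  · exact Or.inl h
  · obtain ⟨u, hu, h⟩ := mem_biUnion.1 h
    exact Or.inr ⟨u, hu, by simpa using h⟩

theorem ball_self (a : V) (r : ℕ) : a ∈ ball G a r := by
  induction r with
  | zero => exact mem_singleton_self a
  | succ r ih => exact ball_succ G ih

theorem ball_tri {a v : V} {r : ℕ} (h : v ∈ ball G a r) :
    ∀ (s : ℕ) (u : V), u ∈ ball G v s → u ∈ ball G a (r + s) := by
  intro s
  induction s with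
  | zero => intro u hu; rw [mem_singleton.1 hu]; exact h
  | succ s ih =>
    intro u hu
    rcases ball_cases G hu with h1 | ⟨u', h1, h2⟩
    · exact ball_succ G (ih u h1)
    · exact ball_adj G (ih u' h1) h2

theorem ball_mono {a v : V} {r s : ℕ} (h : v ∈ ball G a r) (hrs : r ≤ s) : v ∈ ball G a s := by
  obtain ⟨k, rfl⟩ := Nat.exists_eq_add_of_le hrs
  exact ball_tri G h k v (ball_self G v k)

theorem ball_symm (a : V) : ∀ (r : ℕ) (v : V), v ∈ ball G a r → a ∈ ball G v r := by
  intro r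
  induction r with
  | zero => intro v hv; rw [mem_singleton.1 hv]; exact mem_singleton_self a
  | succ r ih =>
    intro v hv
    rcases ball_cases G hv with h1 | ⟨u, h1, h2⟩
    · exact ball_succ G (ih v h1)
    · have := ball_tri G (ball_adj G (ball_self G v 0) h2.symm) r a (ih u h1)
      rwa [zero_add, add_comm] at this

theorem ball_card {d : ℕ} (hd : ∀ v, G.degree v ≤ d) (a : V) (r : ℕ) :
    (ball G a r).card ≤ (d + 1) ^ r := by
  induction r with
  | zero => simp [ball]
  | succ r ih =>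
    have h1 : ((ball G a r).biUnion (fun u => G.neighborFinset u)).card ≤ (ball G a r).card * d :=
      card_biUnion_le_card_mul _ _ _ (fun u _ => by simpa using hd u)
    have h2 := card_union_le (ball G a r) ((ball G a r).biUnion (fun u => G.neighborFinset u))
    calc (ball G a (r + 1)).card ≤ (ball G a r).card * (d + 1) := by
          rw [ball]; linarith
      _ ≤ (d + 1) ^ r * (d + 1) := Nat.mul_le_mul_right _ ih
      _ = (d + 1) ^ (r + 1) := by ring

variable {P : Type} [Fintype P] [DecidableEq P]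

theorem exists_radius (f g : P → V) (hadj : ∀ p, G.Adj (f p) (g p)) {b D : ℕ}
    (hD : (Fintype.card P + 1) * b ^ D < (b + 1) ^ D) (U : Finset V) (x : V) :
    ∃ r < D, b * (univ.filter fun p => f p ∈ U ∧ g p ∈ U ∧
        ¬ (f p ∈ ball G x r ↔ g p ∈ ball G x r)).card ≤
      (univ.filter fun p => f p ∈ U ∧ g p ∈ U ∧ f p ∈ ball G x r ∧ g p ∈ ball G x r).card + 1 := by
  by_contra hn0
  have hn : ∀ r < D, (univ.filter fun p => f p ∈ U ∧ g p ∈ U ∧ f p ∈ ball G x r ∧
      g p ∈ ball G x r).card + 1 < b * (univ.filter fun p => f p ∈ U ∧ g p ∈ U ∧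
        ¬ (f p ∈ ball G x r ↔ g p ∈ ball G x r)).card :=
    fun r hr => not_le.1 fun h => hn0 ⟨r, hr, h⟩
  set I : ℕ → ℕ := fun r =>
    (univ.filter fun p => f p ∈ U ∧ g p ∈ U ∧ f p ∈ ball G x r ∧ g p ∈ ball G x r).card with hI
  have key : ∀ r, r ≤ D → (b + 1) ^ r ≤ (I r + 1) * b ^ r := by
    intro r
    induction r with
    | zero => intro _; simp
    | succ r ih =>
      intro hr
      have h1 := ih (by omega)
      have h2 := hn r (by omega)
      have h3 : I r + (univ.filter fun p => f p ∈ U ∧ g p ∈ U ∧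
          ¬ (f p ∈ ball G x r ↔ g p ∈ ball G x r)).card ≤ I (r + 1) := by
        simp only [hI]
        rw [← card_union_of_disjoint]
        · refine card_le_card fun p hp => ?_
          simp only [mem_union, mem_filter, mem_univ, true_and] at hp ⊢
          rcases hp with ⟨a1, a2, a3, a4⟩ | ⟨a1, a2, a3⟩
          · exact ⟨a1, a2, ball_succ G a3, ball_succ G a4⟩
          · by_cases a4 : f p ∈ ball G x r
            · exact ⟨a1, a2, ball_succ G a4, ball_adj G a4 (hadj p)⟩
            · have a5 : g p ∈ ball G x r := by tauto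
              exact ⟨a1, a2, ball_adj G a5 (hadj p).symm, ball_succ G a5⟩
        · rw [disjoint_filter]
          tauto
      have h4 : (b + 1) * (I r + 1) ≤ (I (r + 1) + 1) * b := by
        have h5 := Nat.mul_le_mul_left b h3
        have h6 : I r + 1 < b * (univ.filter fun p => f p ∈ U ∧ g p ∈ U ∧
          ¬ (f p ∈ ball G x r ↔ g p ∈ ball G x r)).card := h2
        nlinarith
      calc (b + 1) ^ (r + 1) = (b + 1) * (b + 1) ^ r := by ring
        _ ≤ (b + 1) * ((I r + 1) * b ^ r) := Nat.mul_le_mul_left _ h1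
        _ = ((b + 1) * (I r + 1)) * b ^ r := by ring
        _ ≤ ((I (r + 1) + 1) * b) * b ^ r := Nat.mul_le_mul_right _ h4
        _ = (I (r + 1) + 1) * b ^ (r + 1) := by ring
  have h1 := key D le_rfl
  have h2 : I D ≤ Fintype.card P := card_le_univ _
  have h3 : (I D + 1) * b ^ D ≤ (Fintype.card P + 1) * b ^ D := Nat.mul_le_mul_right _ (by omega)
  omega

theorem carve (f g : P → V) (hadj : ∀ p, G.Adj (f p) (g p)) {b D : ℕ}
    (hD : (Fintype.card P + 1) * b ^ D < (b + 1) ^ D) (U : Finset V) :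
    ∃ cl : V → V, (∀ u ∈ U, u ∈ ball G (cl u) D) ∧
      b * (univ.filter fun p => f p ∈ U ∧ g p ∈ U ∧ cl (f p) ≠ cl (g p)).card ≤
        (univ.filter fun p => f p ∈ U ∧ g p ∈ U).card + U.card := by
  induction U using Finset.strongInduction with
  | H U ih =>
  rcases U.eq_empty_or_nonempty with rfl | ⟨x, hx⟩
  · exact ⟨id, by simp, by simp⟩
  obtain ⟨r, hr, hcut⟩ := exists_radius G f g hadj hD U x
  have hss : U \ ball G x r ⊂ U :=
    ⟨sdiff_subset, fun h => (mem_sdiff.1 (h hx)).2 (ball_self G x r)⟩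
  obtain ⟨cl, h1, h2⟩ := ih _ hss
  refine ⟨fun u => if u ∈ ball G x r then x else cl u, fun u hu => ?_, ?_⟩
  · by_cases h : u ∈ ball G x r
    · simp only [h, if_true]; exact ball_mono G h hr.le
    · simp only [h, if_false]; exact h1 u (mem_sdiff.2 ⟨hu, h⟩)
  · have a1 : (univ.filter fun p => f p ∈ U ∧ g p ∈ U ∧
        (if f p ∈ ball G x r then x else cl (f p)) ≠
          (if g p ∈ ball G x r then x else cl (g p))).card ≤
        (univ.filter fun p => f p ∈ U ∧ g p ∈ U ∧
          ¬ (f p ∈ ball G x r ↔ g p ∈ ball G x r)).card +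
        (univ.filter fun p => f p ∈ U \ ball G x r ∧ g p ∈ U \ ball G x r ∧
          cl (f p) ≠ cl (g p)).card := by
      refine le_trans (card_le_card fun p hp => ?_) (card_union_le _ _)
      simp only [mem_union, mem_filter, mem_univ, true_and, mem_sdiff] at hp ⊢
      by_cases c1 : f p ∈ ball G x r <;> by_cases c2 : g p ∈ ball G x r <;> simp_all
    have a2 : (univ.filter fun p => f p ∈ U ∧ g p ∈ U ∧ f p ∈ ball G x r ∧
        g p ∈ ball G x r).card +
        (univ.filter fun p => f p ∈ U \ ball G x r ∧ g p ∈ U \ ball G x r).card ≤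
        (univ.filter fun p => f p ∈ U ∧ g p ∈ U).card := by
      rw [← card_union_of_disjoint]
      · refine card_le_card fun p hp => ?_
        simp only [mem_union, mem_filter, mem_univ, true_and, mem_sdiff] at hp ⊢
        tauto
      · rw [disjoint_filter]
        simp only [mem_sdiff]
        tauto
    have a3 := card_lt_card hss
    have a4 := Nat.mul_le_mul_left b a1
    rw [mul_add] at a4
    beta_reduce
    omega

end Pool.Agent.MP_df0aa7_co.h16

end MrgPart2

-- ======== part 3: formerly Pool.Agent.MP_df0aa7_co.h16.Lab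
section MrgPart3

set_option autoImplicit false
open Finset

namespace Pool.Agent.MP_df0aa7_co.h16

variable {V : Type} [Fintype V] [DecidableEq V] (G : SimpleGraph V) [DecidableRel G.Adj]
variable {L : ℕ} [NeZero L]

/-- every ball of radius `D` has adjacency norm at most `ρ` -/
def LocB (D : ℕ) (ρ : ℝ) : Prop :=
  ∀ a, OpB (fun u v => u ∈ ball G a D ∧ v ∈ ball G a D ∧ G.Adj u v) ρ

omit [DecidableEq V] in
theorem OpB.congr {R R' : V → V → Prop} [DecidableRel R] [DecidableRel R'] {ρ : ℝ}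
    (h : OpB R ρ) (hh : ∀ u v, R' u v ↔ R u v) : OpB R' ρ := by
  intro c
  simp only [hh]
  exact h c

structure Gd (D : ℕ) (T : Finset (ZMod L)) (τ : Equiv.Perm (ZMod L)) (b : ZMod L → Bool)
    (w : ZMod L → V) : Prop where
  adj : ∀ p, G.Adj (w p) (w (p + 1))
  virt : ∀ p, stp (p, b p) ∈ T → w (τ p) = w p
  loc : ∀ p q, τ.SameCycle p q → w q ∈ ball G (w p) D

open Classical in
noncomputable def SS (τ : Equiv.Perm (ZMod L)) (t : ℕ) : Finset (ZMod L) :=
  univ.filter fun p => ∃ i < t, τ.SameCycle (i : ZMod L) p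

theorem mem_SS {τ : Equiv.Perm (ZMod L)} {t : ℕ} {p : ZMod L} :
    p ∈ SS τ t ↔ ∃ i < t, τ.SameCycle (i : ZMod L) p := by
  simp [SS]

theorem mem_SS_succ {τ : Equiv.Perm (ZMod L)} {t : ℕ} {p : ZMod L} :
    p ∈ SS τ (t + 1) ↔ p ∈ SS τ t ∨ τ.SameCycle (t : ZMod L) p := by
  simp only [mem_SS]
  constructor
  · rintro ⟨i, hi, h⟩
    rcases Nat.lt_succ_iff_lt_or_eq.1 hi with h1 | rfl
    · exact Or.inl ⟨i, h1, h⟩
    · exact Or.inr h
  · rintro (⟨i, hi, h⟩ | h)
    · exact ⟨i, by omega, h⟩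
    · exact ⟨t, by omega, h⟩

noncomputable def res (v0 : V) (τ : Equiv.Perm (ZMod L)) (t : ℕ) (w : ZMod L → V) :
    ZMod L → V := fun p => if p ∈ SS τ t then w p else v0

theorem cyc_pow (τ : Equiv.Perm (ZMod L)) (s p : ZMod L) (h : τ.SameCycle s p) :
    ∃ i < Function.minimalPeriod τ s, (τ ^ i) s = p := by
  obtain ⟨i, -, hi⟩ := h.exists_pow_eq'
  have hpos : 0 < Function.minimalPeriod τ s := Function.minimalPeriod_pos_of_mem_periodicPts
    (τ.injective.mem_periodicPts s)
  refine ⟨i % Function.minimalPeriod τ s, Nat.mod_lt _ hpos, ?_⟩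
  rw [← hi, Equiv.Perm.coe_pow, Equiv.Perm.coe_pow, Function.iterate_mod_minimalPeriod_eq]

theorem SS_card (τ : Equiv.Perm (ZMod L)) (t : ℕ) (h : (t : ZMod L) ∉ SS τ t) :
    (SS τ t).card + Function.minimalPeriod τ (t : ZMod L) ≤ (SS τ (t + 1)).card := by
  have h1 : ((range (Function.minimalPeriod τ (t : ZMod L))).image
      fun i => (τ ^ i) (t : ZMod L)).card = Function.minimalPeriod τ (t : ZMod L) := by
    rw [card_image_of_injOn, card_range]
    intro i hi j hj hij
    simp only [Equiv.Perm.coe_pow] at hij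
    exact Function.iterate_injOn_Iio_minimalPeriod (by simpa using hi) (by simpa using hj) hij
  rw [← h1, ← card_union_of_disjoint]
  · refine card_le_card fun p hp => mem_SS_succ.2 ?_
    rcases mem_union.1 hp with hp | hp
    · exact Or.inl hp
    · obtain ⟨i, -, rfl⟩ := mem_image.1 hp
      exact Or.inr ⟨i, by simp⟩
  · rw [disjoint_left]
    intro p hp hp'
    obtain ⟨i, -, rfl⟩ := mem_image.1 hp'
    obtain ⟨j, hj, hj'⟩ := mem_SS.1 hp
    exact h (mem_SS.2 ⟨j, hj, by simpa using hj'⟩)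

theorem fiber_le {D : ℕ} {ρ : ℝ} (hρ : 1 ≤ ρ) (hloc : LocB G D ρ) {T : Finset (ZMod L)}
    {τ : Equiv.Perm (ZMod L)} {b : ZMod L → Bool} (hdat : Dat T τ b) (v0 : V)
    (W : Finset (ZMod L → V)) (hW : ∀ w ∈ W, Gd G D T τ b w) (t : ℕ) (y : ZMod L → V)
    (hy : ∀ w ∈ W, res v0 τ t w = y) (An : Finset V) (hAn : ∀ w ∈ W, w t ∈ An) :
    ((W.image (res v0 τ (t + 1))).card : ℝ) ≤
      An.card * ρ ^ Function.minimalPeriod τ (t : ZMod L) := by
  set s : ZMod L := (t : ZMod L) with hs
  set m := Function.minimalPeriod τ s with hm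
  let R : V → ℕ → V → V → Prop := fun a i u v =>
    (stp ((τ ^ i) s, b ((τ ^ i) s)) ∈ T ∧ u = v) ∨
    (stp ((τ ^ i) s, b ((τ ^ i) s)) ∉ T ∧ u ∈ ball G a D ∧ v ∈ ball G a D ∧ G.Adj u v)
  have hR : ∀ a i, OpB (R a i) ρ := fun a i => by
    by_cases h : stp ((τ ^ i) s, b ((τ ^ i) s)) ∈ T
    · exact (OpB_eq hρ).congr fun u v => by simp [R, h]
    · exact (hloc a).congr fun u v => by simp [R, h]
  have hmem : ∀ i : ℕ, (τ ^ i) s ∈ SS τ (t + 1) := fun i => mem_SS_succ.2 (Or.inr ⟨i, by simp [hs]⟩)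
  have h1 : (W.image (res v0 τ (t + 1))).card ≤ (An.biUnion fun a => seqs (R a) a m a).card := by
    refine card_le_card_of_injOn (fun z => fun i : Fin (m + 1) => z ((τ ^ (i : ℕ)) s)) ?_ ?_
    · intro z hz
      obtain ⟨w, hw, rfl⟩ := mem_image.1 (mem_coe.1 hz)
      have hg := hW w hw
      refine mem_coe.2 (mem_biUnion.2 ⟨w s, hAn w hw, ?_⟩)
      simp only [seqs, mem_filter, mem_univ, true_and, res, hmem, if_true]
      refine ⟨by simp, ?_, fun i => ?_⟩
      · rw [Fin.val_last, Equiv.Perm.coe_pow, hm, Function.iterate_minimalPeriod]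
      · simp only [Fin.val_castSucc, Fin.val_succ, pow_succ', Equiv.Perm.mul_apply, R]
        by_cases h : stp ((τ ^ (i : ℕ)) s, b ((τ ^ (i : ℕ)) s)) ∈ T
        · exact Or.inl ⟨h, (hg.virt _ h).symm⟩
        · refine Or.inr ⟨h, hg.loc _ _ ⟨(i : ℕ), by simp⟩,
            hg.loc _ _ ⟨(i : ℕ) + 1, by rw [add_comm, zpow_add]; simp⟩, ?_⟩
          rw [hdat.f1 _ h]
          split_ifs
          · exact hg.adj _
          · have := (hg.adj ((τ ^ (i : ℕ)) s - 1)).symm
            rwa [sub_add_cancel] at this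
    · intro z hz z' hz' hzz
      obtain ⟨w, hw, rfl⟩ := mem_image.1 (mem_coe.1 hz)
      obtain ⟨w', hw', rfl⟩ := mem_image.1 (mem_coe.1 hz')
      funext p
      by_cases hp : p ∈ SS τ (t + 1)
      · rcases mem_SS_succ.1 hp with h | h
        · have := congrFun ((hy w hw).trans (hy w' hw').symm) p
          simpa only [res, h, hp, if_true] using this
        · obtain ⟨i, hi, rfl⟩ := cyc_pow τ s p h
          exact congrFun hzz ⟨i, by omega⟩
      · simp only [res, hp, if_false]
  calc ((W.image (res v0 τ (t + 1))).card : ℝ)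
      ≤ ∑ a ∈ An, ((seqs (R a) a m a).card : ℝ) := by exact_mod_cast h1.trans card_biUnion_le
    _ ≤ ∑ _a ∈ An, ρ ^ m :=
        Finset.sum_le_sum fun a _ => seqs_le (R a) (by linarith) (hR a) a m a
    _ = An.card * ρ ^ m := by simp

omit [Fintype V] in
theorem image_le {α β γ : Type} [DecidableEq β] [DecidableEq γ] (W : Finset α) (f : α → β)
    (g : α → γ) (c : ℝ)
    (h : ∀ y ∈ W.image f, (((W.filter fun w => f w = y).image g).card : ℝ) ≤ c) :
    ((W.image g).card : ℝ) ≤ (W.image f).card * c := by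
  have h1 : W.image g ⊆ (W.image f).biUnion fun y => (W.filter fun w => f w = y).image g := by
    intro z hz
    obtain ⟨w, hw, rfl⟩ := mem_image.1 hz
    exact mem_biUnion.2 ⟨f w, mem_image_of_mem _ hw, mem_image_of_mem _ (mem_filter.2 ⟨hw, rfl⟩)⟩
  calc ((W.image g).card : ℝ)
      ≤ ∑ y ∈ W.image f, (((W.filter fun w => f w = y).image g).card : ℝ) := by
        exact_mod_cast (card_le_card h1).trans card_biUnion_le
    _ ≤ ∑ _y ∈ W.image f, c := Finset.sum_le_sum h
    _ = (W.image f).card * c := by simp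

theorem lab_step {d D : ℕ} (hd : ∀ v, G.degree v ≤ d) (hd1 : 1 ≤ d) {ρ : ℝ} (hρ : 1 ≤ ρ)
    (hloc : LocB G D ρ) {T : Finset (ZMod L)}
    {τ : Equiv.Perm (ZMod L)} {b : ZMod L → Bool} (hdat : Dat T τ b) (v0 : V)
    (W : Finset (ZMod L → V)) (hW : ∀ w ∈ W, Gd G D T τ b w) (t : ℕ) :
    ((W.image (res v0 τ (t + 1))).card : ℝ) ≤ Fintype.card V *
      d ^ ((range t).filter fun i : ℕ => (i : ZMod L) ∈ T).card * ρ ^ (SS τ (t + 1)).card := by
  have hd' : (1 : ℝ) ≤ d := by exact_mod_cast hd1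
  induction t with
  | zero =>
    have h0 : SS τ 0 = ∅ := by simp [SS]
    have h1 := fiber_le G hρ hloc hdat v0 W hW 0 (fun _ => v0)
      (fun w _ => by funext p; simp [res, h0]) univ (fun _ _ => mem_univ _)
    have h2 := SS_card τ 0 (by simp [h0])
    refine h1.trans ?_
    simp only [card_univ, range_zero, filter_empty, card_empty, pow_zero, mul_one]
    exact mul_le_mul_of_nonneg_left (pow_le_pow_right₀ hρ (by omega)) (by positivity)
  | succ t ih =>
    have hmono : ((range t).filter fun i : ℕ => (i : ZMod L) ∈ T).card ≤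
        ((range (t + 1)).filter fun i : ℕ => (i : ZMod L) ∈ T).card :=
      card_le_card (filter_subset_filter _ (range_subset_range.2 (by omega)))
    by_cases hn : ((t + 1 : ℕ) : ZMod L) ∈ SS τ (t + 1)
    · have h1 : SS τ (t + 1 + 1) = SS τ (t + 1) := by
        ext p
        rw [mem_SS_succ]
        refine ⟨fun h => h.elim id fun h => ?_, Or.inl⟩
        obtain ⟨i, hi, hi'⟩ := mem_SS.1 hn
        exact mem_SS.2 ⟨i, hi, hi'.trans h⟩
      have h2 : (res v0 τ (t + 1 + 1) : (ZMod L → V) → ZMod L → V) = res v0 τ (t + 1) := by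
        funext w p; simp only [res, h1]
      rw [h1, h2]
      refine ih.trans ?_
      gcongr
    · have ht : (t : ZMod L) ∈ SS τ (t + 1) := mem_SS_succ.2 (Or.inr (Equiv.Perm.SameCycle.refl _ _))
      have hT : (t : ZMod L) ∈ T := by
        by_contra hT
        apply hn
        rw [Nat.cast_succ]
        refine mem_SS_succ.2 (Or.inr ?_)
        cases hb : b t
        · have hb' := (hdat.f2 _ hT).trans hb
          have := hdat.f1 ((t : ZMod L) + 1) (by simpa [stp, hb'] using hT)
          rw [hb'] at this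
          simp only [Bool.false_eq_true, if_false, add_sub_cancel_right] at this
          exact Equiv.Perm.SameCycle.symm ⟨1, by simpa using this⟩
        · have := hdat.f1 (t : ZMod L) (by simpa [stp, hb] using hT)
          rw [hb] at this
          exact ⟨1, by simpa using this⟩
      have h1 := image_le W (res v0 τ (t + 1)) (res v0 τ (t + 1 + 1))
        (d * ρ ^ Function.minimalPeriod τ ((t + 1 : ℕ) : ZMod L)) (fun y _ => by
          refine (fiber_le G hρ hloc hdat v0 _ (fun w hw => hW w (mem_filter.1 hw).1) (t + 1) y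
            (fun w hw => (mem_filter.1 hw).2) (G.neighborFinset (y t)) (fun w hw => ?_)).trans ?_
          · obtain ⟨a1, a2⟩ := mem_filter.1 hw
            have : y t = w t := by rw [← a2]; simp only [res, ht, if_true]
            rw [this, SimpleGraph.mem_neighborFinset, Nat.cast_succ]
            exact (hW w a1).adj _
          · have : ((G.neighborFinset (y t)).card : ℝ) ≤ d := by exact_mod_cast hd (y t)
            gcongr)
      have h2 := SS_card τ (t + 1) hn
      have h3 : ((range (t + 1)).filter fun i : ℕ => (i : ZMod L) ∈ T).card =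
          ((range t).filter fun i : ℕ => (i : ZMod L) ∈ T).card + 1 := by
        rw [range_add_one, filter_insert, if_pos hT, card_insert_of_notMem (by simp)]
      refine h1.trans ?_
      rw [h3]
      calc ((W.image (res v0 τ (t + 1))).card : ℝ) *
            (d * ρ ^ Function.minimalPeriod τ ((t + 1 : ℕ) : ZMod L))
          ≤ (Fintype.card V * d ^ ((range t).filter fun i : ℕ => (i : ZMod L) ∈ T).card *
              ρ ^ (SS τ (t + 1)).card) *
            (d * ρ ^ Function.minimalPeriod τ ((t + 1 : ℕ) : ZMod L)) := by gcongr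
        _ = Fintype.card V * d ^ (((range t).filter fun i : ℕ => (i : ZMod L) ∈ T).card + 1) *
              ρ ^ ((SS τ (t + 1)).card + Function.minimalPeriod τ ((t + 1 : ℕ) : ZMod L)) := by
            ring
        _ ≤ _ := by gcongr

theorem lab {d D : ℕ} (hd : ∀ v, G.degree v ≤ d) (hd1 : 1 ≤ d) {ρ : ℝ} (hρ : 1 ≤ ρ)
    (hloc : LocB G D ρ) {T : Finset (ZMod L)}
    {τ : Equiv.Perm (ZMod L)} {b : ZMod L → Bool} (hdat : Dat T τ b)
    (W : Finset (ZMod L → V)) (hW : ∀ w ∈ W, Gd G D T τ b w) :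
    (W.card : ℝ) ≤ Fintype.card V * d ^ T.card * ρ ^ L := by
  have hd' : (1 : ℝ) ≤ d := by exact_mod_cast hd1
  rcases W.eq_empty_or_nonempty with rfl | ⟨w0, -⟩
  · simp only [card_empty, Nat.cast_zero]; positivity
  have h1 := lab_step G hd hd1 hρ hloc hdat (w0 0) W hW L
  have h2 : ∀ p, p ∈ SS τ (L + 1) := fun p =>
    mem_SS.2 ⟨p.val, by have := ZMod.val_lt p; omega, by
      rw [ZMod.natCast_zmod_val]⟩
  have h3 : (res (w0 0) τ (L + 1) : (ZMod L → V) → ZMod L → V) = id := by
    funext w p; simp [res, h2]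
  rw [h3, image_id] at h1
  have h4 : (SS τ (L + 1)).card ≤ L := (card_le_univ _).trans (ZMod.card L).le
  have h5 : ((range L).filter fun i : ℕ => (i : ZMod L) ∈ T).card ≤ T.card := by
    refine card_le_card_of_injOn (fun i : ℕ => (i : ZMod L)) (fun i hi => ?_) ?_
    · exact (mem_filter.1 (mem_coe.1 hi)).2
    · intro i hi j hj hij
      have a1 := mem_range.1 (mem_filter.1 (mem_coe.1 hi)).1
      have a2 := mem_range.1 (mem_filter.1 (mem_coe.1 hj)).1
      have := congrArg ZMod.val hij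
      simpa only [ZMod.val_natCast_of_lt a1, ZMod.val_natCast_of_lt a2] using this
  refine h1.trans ?_
  gcongr

end Pool.Agent.MP_df0aa7_co.h16

end MrgPart3

-- ======== part 4: formerly Pool.Agent.MP_df0aa7_co.h16.Even
section MrgPart4

set_option autoImplicit false
open Finset

namespace Pool.Agent.MP_df0aa7_co.h16

variable {V : Type} [Fintype V] [DecidableEq V] (G : SimpleGraph V) [DecidableRel G.Adj]

/-- closed walks of length `L` using every edge an even number of times -/
def EW (L : ℕ) [NeZero L] : Finset (ZMod L → V) :=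
  univ.filter fun w => (∀ p, G.Adj (w p) (w (p + 1))) ∧
    ∀ e : Sym2 V, Even (univ.filter fun p => s(w p, w (p + 1)) = e).card

variable {L : ℕ} [NeZero L]

theorem exists_dat {b D q : ℕ} (hD : (L + 1) * b ^ D < (b + 1) ^ D) (hq : 2 * L < b * (q + 1))
    (w : ZMod L → V) (hw : w ∈ EW G L) :
    ∃ (T : Finset (ZMod L)) (τ : Equiv.Perm (ZMod L)) (s : ZMod L → Bool),
      T.card ≤ q ∧ Dat T τ s ∧ Gd G (D + D) T τ s w := by
  obtain ⟨hadj, hev⟩ := (mem_filter.1 hw).2
  obtain ⟨cl, h1, h2⟩ := carve G w (fun p => w (p + 1)) hadj (b := b) (D := D)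
    (by rwa [ZMod.card]) (univ.image w)
  have hm : ∀ p, w p ∈ univ.image w := fun p => mem_image_of_mem _ (mem_univ p)
  simp only [hm, true_and] at h2
  set T : Finset (ZMod L) := univ.filter fun p => cl (w p) ≠ cl (w (p + 1)) with hT
  have hTm : ∀ p, p ∈ T ↔ cl (w p) ≠ cl (w (p + 1)) := fun p => by simp [hT]
  have hc : T.card ≤ q := by
    have a1 : (univ.filter fun _ : ZMod L => True).card ≤ L :=
      (card_le_univ _).trans (ZMod.card L).le
    have a2 : (univ.image w).card ≤ L := card_image_le.trans (by rw [card_univ, ZMod.card])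
    by_contra hn
    have a3 := Nat.mul_le_mul_left b (show q + 1 ≤ T.card by omega)
    omega
  obtain ⟨τ, s, hdat, hv⟩ := glue w (fun p => (hadj p).ne) T (fun e => by
    rcases (T.filter fun p => s(w p, w (p + 1)) = e).eq_empty_or_nonempty with h | ⟨p0, hp0⟩
    · rw [h]; simp
    · obtain ⟨a1, a2⟩ := mem_filter.1 hp0
      have : (T.filter fun p => s(w p, w (p + 1)) = e) =
          univ.filter fun p => s(w p, w (p + 1)) = e := by
        ext p
        simp only [mem_filter, mem_univ, true_and]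
        refine ⟨fun h => h.2, fun h => ⟨(hTm p).2 ?_, h⟩⟩
        have a3 := (hTm p0).1 a1
        rcases Sym2.eq_iff.1 (h.trans a2.symm) with ⟨b1, b2⟩ | ⟨b1, b2⟩
        · rwa [b1, b2]
        · rw [b1, b2]; exact a3.symm
      rw [this]; exact hev e)
  have hcl : ∀ p, cl (w (τ p)) = cl (w p) := fun p => by
    by_cases h : stp (p, s p) ∈ T
    · rw [hv p h]
    · rw [hdat.f1 p h]
      rw [hTm, not_not] at h
      cases hs : s p
      · simp only [hs, stp, Bool.false_eq_true, if_false, sub_add_cancel] at h ⊢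
        exact h
      · simp only [hs, stp, if_true] at h ⊢
        exact h.symm
  have hcl' : ∀ (i : ℕ) p, cl (w ((τ ^ i) p)) = cl (w p) := fun i p => by
    induction i with
    | zero => rfl
    | succ i ih => rw [pow_succ', Equiv.Perm.mul_apply, hcl, ih]
  refine ⟨T, τ, s, hc, hdat, hadj, hv, fun p p' h => ?_⟩
  obtain ⟨i, -, rfl⟩ := h.exists_pow_eq'
  refine ball_tri G (ball_symm G _ _ _ (h1 _ (hm p))) D _ ?_
  rw [← hcl' i p]
  exact h1 _ (hm _)

def exc (T : Finset (ZMod L)) : Finset (ZMod L) := insert 0 (T ∪ T.image (· + 1))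

def enc (T : Finset (ZMod L)) (τ : Equiv.Perm (ZMod L)) (s : ZMod L → Bool) :
    Finset (ZMod L × Bool × ZMod L × Bool) :=
  (exc T).image fun p => (p, s p, τ p, decide (p ∈ T))

omit [NeZero L] in
theorem enc_card (T : Finset (ZMod L)) (τ : Equiv.Perm (ZMod L)) (s : ZMod L → Bool) :
    (enc T τ s).card ≤ 2 * T.card + 1 := by
  refine card_image_le.trans ((card_insert_le _ _).trans ?_)
  have h1 := card_union_le T (T.image (· + 1))
  have h2 : (T.image (· + 1)).card ≤ T.card := card_image_le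
  omega

theorem enc_inj {T T' : Finset (ZMod L)} {τ τ' : Equiv.Perm (ZMod L)} {s s' : ZMod L → Bool}
    (h : Dat T τ s) (h' : Dat T' τ' s') (he : enc T τ s = enc T' τ' s') :
    T = T' ∧ τ = τ' ∧ s = s' := by
  have k1 : ∀ p ∈ exc T, p ∈ exc T' ∧ s p = s' p ∧ τ p = τ' p ∧ (p ∈ T ↔ p ∈ T') := by
    intro p hp
    have : (p, s p, τ p, decide (p ∈ T)) ∈ enc T' τ' s' := he ▸ mem_image_of_mem _ hp
    obtain ⟨p', a1, a2⟩ := mem_image.1 this
    simp only [Prod.mk.injEq, decide_eq_decide] at a2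
    obtain ⟨rfl, b1, b2, b3⟩ := a2
    exact ⟨a1, b1.symm, b2.symm, b3.symm⟩
  have k2 : ∀ p ∈ exc T', p ∈ exc T := by
    intro p hp
    have : (p, s' p, τ' p, decide (p ∈ T')) ∈ enc T τ s := he.symm ▸ mem_image_of_mem _ hp
    obtain ⟨p', a1, a2⟩ := mem_image.1 this
    simp only [Prod.mk.injEq] at a2
    exact a2.1 ▸ a1
  have m1 : ∀ (T : Finset (ZMod L)) p, p ∈ T → p ∈ exc T := fun T p hp =>
    mem_insert_of_mem (mem_union_left _ hp)
  have m2 : ∀ (T : Finset (ZMod L)) p, p ∈ T → p + 1 ∈ exc T := fun T p hp =>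
    mem_insert_of_mem (mem_union_right _ (mem_image_of_mem _ hp))
  have hT : T = T' := by
    ext p
    exact ⟨fun hp => (k1 p (m1 T p hp)).2.2.2.1 hp, fun hp => (k1 p (k2 p (m1 T' p hp))).2.2.2.2 hp⟩
  subst hT
  have hs : s = s' := by
    have : ∀ i : ℕ, s i = s' i := by
      intro i
      induction i with
      | zero => rw [Nat.cast_zero]; exact (k1 0 (mem_insert_self _ _)).2.1
      | succ i ih =>
        rw [Nat.cast_succ]
        by_cases hi : (i : ZMod L) ∈ T
        · exact (k1 _ (m2 T _ hi)).2.1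
        · rw [h.f2 _ hi, h'.f2 _ hi, ih]
    funext p
    rw [← ZMod.natCast_zmod_val p]; exact this _
  subst hs
  refine ⟨rfl, Equiv.ext fun p => ?_, rfl⟩
  by_cases hp : stp (p, s p) ∈ T
  · refine (k1 p ?_).2.2.1
    unfold stp at hp
    split_ifs at hp
    · exact m1 T p hp
    · have := m2 T _ hp
      rwa [sub_add_cancel] at this
  · rw [h.f1 p hp, h'.f1 p hp]

theorem small_subsets (Z : Type) [Fintype Z] [DecidableEq Z] (s : ℕ) :
    (univ.filter fun A : Finset Z => A.card ≤ s).card ≤ (Fintype.card Z + 1) ^ s := by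
  have h1 : (univ.filter fun A : Finset Z => A.card ≤ s) ⊆
      (range (s + 1)).biUnion fun i => powersetCard i univ := by
    intro A hA
    exact mem_biUnion.2 ⟨A.card, mem_range.2 (Nat.lt_succ_of_le (mem_filter.1 hA).2),
      mem_powersetCard.2 ⟨subset_univ _, rfl⟩⟩
  refine (card_le_card h1).trans (card_biUnion_le.trans ?_)
  rw [add_pow]
  refine Finset.sum_le_sum fun i hi => ?_
  rw [card_powersetCard, card_univ, one_pow, mul_one]
  exact (Nat.choose_le_pow _ _).trans
    (Nat.le_mul_of_pos_right _ (Nat.choose_pos (Nat.lt_succ_iff.1 (mem_range.1 hi))))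

theorem ew_bound {d b D q : ℕ} (hd : ∀ v, G.degree v ≤ d) (hd1 : 1 ≤ d) {ρ : ℝ} (hρ : 1 ≤ ρ)
    (hloc : LocB G (D + D) ρ) (hD : (L + 1) * b ^ D < (b + 1) ^ D) (hq : 2 * L < b * (q + 1)) :
    ((EW G L).card : ℝ) ≤
      (4 * (L : ℝ) ^ 2 + 1) ^ (2 * q + 1) * (Fintype.card V * d ^ q * ρ ^ L) := by
  have hd' : (1 : ℝ) ≤ d := by exact_mod_cast hd1
  have := exists_dat G hD hq (L := L)
  choose! T τ s hT hdat hg using this
  have h1 := image_le (EW G L) (fun w => enc (T w) (τ w) (s w)) id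
    (Fintype.card V * d ^ q * ρ ^ L) (fun y hy => by
      obtain ⟨w0, hw0, rfl⟩ := mem_image.1 hy
      rw [image_id]
      refine (lab G hd hd1 hρ hloc (hdat w0 hw0) _ (fun w hw => ?_)).trans ?_
      · obtain ⟨a1, a2⟩ := mem_filter.1 hw
        obtain ⟨b1, b2, b3⟩ := enc_inj (hdat w a1) (hdat w0 hw0) a2
        rw [← b1, ← b2, ← b3]; exact hg w a1
      · have := hT w0 hw0
        gcongr)
  rw [image_id] at h1
  refine h1.trans (mul_le_mul_of_nonneg_right ?_ (by positivity))
  have h2 : ((EW G L).image fun w => enc (T w) (τ w) (s w)) ⊆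
      univ.filter fun A => A.card ≤ 2 * q + 1 := by
    intro A hA
    obtain ⟨w, hw, rfl⟩ := mem_image.1 hA
    have a1 := enc_card (T w) (τ w) (s w)
    have a2 := hT w hw
    exact mem_filter.2 ⟨mem_univ _, by omega⟩
  have h3 := (card_le_card h2).trans (small_subsets _ _)
  have h4 : Fintype.card (ZMod L × Bool × ZMod L × Bool) = 4 * L ^ 2 := by
    simp only [Fintype.card_prod, ZMod.card, Fintype.card_bool]; ring
  rw [h4] at h3
  exact_mod_cast h3

end Pool.Agent.MP_df0aa7_co.h16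

end MrgPart4

-- ======== part 5: formerly Pool.Agent.MP_df0aa7_co.h16.HL
section MrgPart5

set_option autoImplicit false
open Matrix Finset

namespace Pool.Agent.MP_df0aa7_co.h16

variable {V : Type} [Fintype V] [DecidableEq V] (G : SimpleGraph V) [DecidableRel G.Adj]

/-- signed adjacency matrix; `T` is the set of negative edges -/
def sg (T : Finset (Sym2 V)) : Matrix V V ℝ :=
  fun u v => if G.Adj u v then (if s(u, v) ∈ T then -1 else 1) else 0

omit [Fintype V] in
theorem sg_symm (T : Finset (Sym2 V)) (u v : V) : sg G T u v = sg G T v u := by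
  unfold sg
  rw [Sym2.eq_swap]
  simp only [G.adj_comm]

omit [Fintype V] in
theorem sg_sq (T : Finset (Sym2 V)) {u v : V} (h : G.Adj u v) : sg G T u v * sg G T u v = 1 := by
  unfold sg
  rw [if_pos h]
  split_ifs <;> norm_num

omit [Fintype V] in
theorem sg_tog_ne (T : Finset (Sym2 V)) (e : Sym2 V) {u v : V} (h : s(u, v) ≠ e) :
    sg G (symmDiff T {e}) u v = sg G T u v := by
  unfold sg
  simp [mem_symmDiff, h]

omit [Fintype V] in
theorem sg_tog_eq (T : Finset (Sym2 V)) (u v : V) :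
    sg G (symmDiff T {s(u, v)}) u v = -sg G T u v := by
  unfold sg
  by_cases h : s(u, v) ∈ T <;> by_cases h2 : G.Adj u v <;> simp [mem_symmDiff, h, h2]

omit [Fintype V] in
theorem sum_tog (E : Finset (Sym2 V)) {e : Sym2 V} (he : e ∈ E) (f : Finset (Sym2 V) → ℝ)
    (hf : ∀ T, f (symmDiff T {e}) = -f T) : ∑ T ∈ E.powerset, f T = 0 := by
  have h1 : ∑ T ∈ E.powerset, f T = ∑ T ∈ E.powerset, f (symmDiff T {e}) := by
    have hm : ∀ T ∈ E.powerset, symmDiff T {e} ∈ E.powerset := by
      intro T hT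
      rw [mem_powerset] at hT ⊢
      intro x hx
      rcases mem_symmDiff.1 hx with h | h
      · exact hT h.1
      · rw [mem_singleton.1 h.1]; exact he
    refine Finset.sum_nbij' (fun T => symmDiff T {e}) (fun T => symmDiff T {e}) hm hm ?_ ?_ ?_
    · intro T _; simp
    · intro T _; simp
    · intro T _; simp
  simp only [hf, Finset.sum_neg_distrib] at h1
  linarith

def MU (x : ℝ) (T : Finset (Sym2 V)) (U : Finset V) : Matrix V V ℝ :=
  Matrix.of fun u w => if u ∈ U then (if u = w then x else 0) - sg G T u w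
    else if u = w then 1 else 0

noncomputable def mu (x : ℝ) (U : Finset V) : ℝ :=
  ∑ T ∈ G.edgeFinset.powerset, (MU G x T U).det

theorem det_row_sum (M : Matrix V V ℝ) (j : V) (r : V → ℝ) :
    (M.updateRow j r).det = ∑ v, r v * (M.updateRow j (Pi.single v 1)).det := by
  have h1 : r = ∑ v, r v • (Pi.single v 1 : V → ℝ) := by
    ext w; simp [Pi.single_apply]
  rw [← cramer_transpose_apply]
  conv_lhs => rw [h1, map_sum]
  rw [Finset.sum_apply]
  refine Finset.sum_congr rfl fun v _ => ?_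
  rw [map_smul, Pi.smul_apply, cramer_transpose_apply, smul_eq_mul]

/-- the part that does not see the sign of the edge `uv` -/
noncomputable def XX (x : ℝ) (T : Finset (Sym2 V)) (U : Finset V) (u v : V) : ℝ :=
  (((MU G x T (U.erase u)).updateRow u (Pi.single v 1)).updateRow v
    (fun w => if w = u then 0 else (if v = w then x else 0) - sg G T v w)).det

theorem XX_tog (x : ℝ) (T : Finset (Sym2 V)) (U : Finset V) (u v : V) :
    XX G x (symmDiff T {s(u, v)}) U u v = XX G x T U u v := by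
  unfold XX
  congr 1
  ext a b
  by_cases ha : a = v
  · subst ha
    simp only [updateRow_self]
    split_ifs with h1 h2
    · rfl
    · rw [sg_tog_ne]; intro h; rcases Sym2.eq_iff.1 h with h | h
      · exact h1 (h2 ▸ h.1)
      · exact h1 h.2
    · rw [sg_tog_ne]; intro h; rcases Sym2.eq_iff.1 h with h | h
      · exact h2 h.2.symm
      · exact h1 h.2
  · rw [updateRow_ne ha, updateRow_ne ha]
    by_cases hu : a = u
    · subst hu; simp only [updateRow_self]
    · rw [updateRow_ne hu, updateRow_ne hu]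
      simp only [MU, of_apply]
      rw [sg_tog_ne]
      intro h; rcases Sym2.eq_iff.1 h with h | h
      · exact hu h.1
      · exact ha h.1

theorem det_uv (x : ℝ) (T : Finset (Sym2 V)) (U : Finset V) {u v : V} (h : G.Adj u v)
    (hv : v ∈ U) :
    ((MU G x T (U.erase u)).updateRow u (Pi.single v 1)).det =
      XX G x T U u v + sg G T u v * (MU G x T ((U.erase u).erase v)).det := by
  have hne : u ≠ v := h.ne
  set W := (MU G x T (U.erase u)).updateRow u (Pi.single v 1) with hW
  have h1 : W = W.updateRow v ((fun w => if w = u then 0 else (if v = w then x else 0) - sg G T v w)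
      + (-sg G T u v) • (Pi.single u 1 : V → ℝ)) := by
    ext a b
    by_cases ha : a = v
    · subst ha
      rw [updateRow_self, hW, updateRow_ne hne.symm]
      have : a ∈ U.erase u := mem_erase.2 ⟨hne.symm, hv⟩
      simp only [MU, of_apply, this, if_true, Pi.add_apply, Pi.smul_apply, smul_eq_mul]
      by_cases hb : b = u
      · subst hb; simp [hne.symm, sg_symm G T a b]
      · simp [hb]
    · rw [updateRow_ne ha]
  have h2 : W.updateRow v (Pi.single u 1) =
      (MU G x T ((U.erase u).erase v)).submatrix (Equiv.swap u v) id := by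
    ext a b
    by_cases ha : a = v
    · subst ha
      simp [MU, Pi.single_apply, eq_comm]
    · rw [updateRow_ne ha, hW]
      by_cases hu : a = u
      · subst hu
        simp [MU, Pi.single_apply, eq_comm]
      · rw [updateRow_ne hu]
        simp [MU, Equiv.swap_apply_of_ne_of_ne hu ha, ha, hu]
  rw [h1, det_updateRow_add, det_updateRow_smul, h2, det_permute, Equiv.Perm.sign_swap hne]
  unfold XX
  rw [← hW]
  simp

theorem det_rec (x : ℝ) (T : Finset (Sym2 V)) (U : Finset V) {u : V} (hu : u ∈ U) :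
    (MU G x T U).det = x * (MU G x T (U.erase u)).det -
      ∑ v ∈ G.neighborFinset u ∩ U, (sg G T u v * XX G x T U u v +
        (MU G x T ((U.erase u).erase v)).det) := by
  have h1 : MU G x T U = (MU G x T (U.erase u)).updateRow u
      (x • (Pi.single u 1 : V → ℝ) + fun w => -sg G T u w) := by
    ext a b
    by_cases ha : a = u
    · subst ha
      simp [MU, hu, Pi.single_apply, eq_comm, sub_eq_add_neg]
    · rw [updateRow_ne ha]
      simp [MU, ha]
  have h2 : (MU G x T (U.erase u)).updateRow u (Pi.single u 1) = MU G x T (U.erase u) := by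
    ext a b
    by_cases ha : a = u
    · subst ha
      simp [MU, Pi.single_apply, eq_comm]
    · rw [updateRow_ne ha]
  rw [h1, det_updateRow_add, det_updateRow_smul, h2, det_row_sum, sub_eq_add_neg,
    ← Finset.sum_neg_distrib]
  congr 1
  symm
  refine Finset.sum_subset_zero_on_sdiff (subset_univ _) ?_ ?_
  · intro v hv
    have hv' := (mem_sdiff.1 hv).2
    by_cases ha : G.Adj u v
    · have hvU : v ∉ U := fun h => hv' (mem_inter.2 ⟨by simpa using ha, h⟩)
      rw [det_zero_of_row_eq ha.ne, mul_zero]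
      rw [updateRow_self, updateRow_ne ha.ne.symm]
      ext b
      simp [MU, hvU, Pi.single_apply, eq_comm]
    · simp [sg, ha]
  · intro v hv
    obtain ⟨h3, h4⟩ := mem_inter.1 hv
    have ha : G.Adj u v := by simpa using h3
    rw [det_uv G x T U ha h4]
    have := sg_sq G T ha
    linear_combination (MU G x T ((U.erase u).erase v)).det * this

theorem mu_rec (x : ℝ) (U : Finset V) {u : V} (hu : u ∈ U) :
    mu G x U = x * mu G x (U.erase u) -
      ∑ v ∈ G.neighborFinset u ∩ U, mu G x ((U.erase u).erase v) := by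
  unfold mu
  simp only [det_rec G x _ U hu]
  rw [Finset.sum_sub_distrib, ← Finset.mul_sum, Finset.sum_comm]
  congr 1
  refine Finset.sum_congr rfl fun v hv => ?_
  have ha : G.Adj u v := by simpa using (mem_inter.1 hv).1
  rw [Finset.sum_add_distrib, sum_tog G.edgeFinset (e := s(u, v)) (by simpa using ha), zero_add]
  intro T
  rw [XX_tog, sg_tog_eq]; ring

theorem mu_pos {d : ℕ} (hd : ∀ v, G.degree v ≤ d + 1) (hd1 : 1 ≤ d) (x : ℝ)
    (hx : 2 * √(d : ℝ) < x) (U : Finset V) :
    0 < mu G x U ∧ ∀ u ∈ U, (G.neighborFinset u ∩ U).card ≤ d →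
      √(d : ℝ) * mu G x (U.erase u) ≤ mu G x U := by
  have ht : (1 : ℝ) ≤ √(d : ℝ) := Real.one_le_sqrt.2 (by exact_mod_cast hd1)
  have htt : √(d : ℝ) * √(d : ℝ) = d := Real.mul_self_sqrt (by positivity)
  induction U using Finset.strongInduction with
  | H U ih =>
  have key : ∀ u ∈ U, (x * √(d : ℝ) - (G.neighborFinset u ∩ U).card) * mu G x (U.erase u) ≤
      √(d : ℝ) * mu G x U := by
    intro u hu
    have h1 := ih (U.erase u) (erase_ssubset hu)
    have h2 : ∀ v ∈ G.neighborFinset u ∩ U,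
        √(d : ℝ) * mu G x ((U.erase u).erase v) ≤ mu G x (U.erase u) := by
      intro v hv
      obtain ⟨h3, h4⟩ := mem_inter.1 hv
      have ha : G.Adj u v := by simpa using h3
      refine h1.2 v (mem_erase.2 ⟨ha.ne.symm, h4⟩) ?_
      have h5 : G.neighborFinset v ∩ U.erase u ⊆ (G.neighborFinset v).erase u := by
        intro w hw
        obtain ⟨h6, h7⟩ := mem_inter.1 hw
        exact mem_erase.2 ⟨(mem_erase.1 h7).1, h6⟩
      have h6 := card_le_card h5
      rw [card_erase_of_mem (by simpa using ha.symm), G.card_neighborFinset_eq_degree] at h6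
      have := hd v
      omega
    have h3 := Finset.sum_le_card_nsmul _ _ _ h2
    rw [← Finset.mul_sum, nsmul_eq_mul] at h3
    rw [mu_rec G x U hu]
    nlinarith
  constructor
  · rcases U.eq_empty_or_nonempty with rfl | ⟨u, hu⟩
    · have : ∀ T, MU G x T ∅ = 1 := fun T => by ext a b; simp [MU, one_apply]
      simp [mu, this]
    · have h1 := (ih (U.erase u) (erase_ssubset hu)).1
      have h2 := key u hu
      have h3 : ((G.neighborFinset u ∩ U).card : ℝ) ≤ d + 1 := by
        have := (card_le_card (inter_subset_left (s₁ := G.neighborFinset u) (s₂ := U))).trans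
          ((G.card_neighborFinset_eq_degree u).le.trans (hd u))
        exact_mod_cast this
      have h4 : 0 < x * √(d : ℝ) - (G.neighborFinset u ∩ U).card := by nlinarith
      have h5 := mul_pos h4 h1
      by_contra hn
      nlinarith [not_lt.1 hn]
  · intro u hu hc
    have h1 := (ih (U.erase u) (erase_ssubset hu)).1
    have h2 := key u hu
    have h3 : ((G.neighborFinset u ∩ U).card : ℝ) ≤ d := by exact_mod_cast hc
    have h4 : √(d : ℝ) * √(d : ℝ) ≤ x * √(d : ℝ) - (G.neighborFinset u ∩ U).card := by nlinarith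
    have h5 := mul_le_mul_of_nonneg_right h4 h1.le
    have h6 : √(d : ℝ) * (√(d : ℝ) * mu G x (U.erase u)) ≤ √(d : ℝ) * mu G x U := by nlinarith
    exact le_of_mul_le_mul_left h6 (by linarith)

end Pool.Agent.MP_df0aa7_co.h16

end MrgPart5

-- ======== part 6: formerly Pool.Agent.MP_df0aa7_co.h16.Mom
section MrgPart6

set_option autoImplicit false
open Finset Matrix

namespace Pool.Agent.MP_df0aa7_co.h16

variable {V : Type} [Fintype V] [DecidableEq V]

theorem pow_sum (S : Matrix V V ℝ) (m : ℕ) : ∀ f : V → V → ℝ,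
    ∑ a, ∑ c, (S ^ m) a c * f a c =
      ∑ x : Fin (m + 1) → V, (∏ i : Fin m, S (x i.castSucc) (x i.succ)) *
        f (x 0) (x (Fin.last m)) := by
  induction m with
  | zero =>
    intro f
    simp only [pow_zero, one_apply, ite_mul, one_mul, zero_mul, Finset.sum_ite_eq, mem_univ,
      if_true, univ_eq_empty, prod_empty]
    exact (Fintype.sum_equiv (Equiv.funUnique (Fin 1) V) _ _ (fun x => rfl)).symm
  | succ m ih =>
    intro f
    have h1 : ∑ a, ∑ c, (S ^ (m + 1)) a c * f a c =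
        ∑ a, ∑ u, (S ^ m) a u * ∑ c, S u c * f a c := by
      refine Finset.sum_congr rfl fun a _ => ?_
      simp only [pow_succ, Matrix.mul_apply, Finset.sum_mul, Finset.mul_sum]
      rw [Finset.sum_comm]
      simp only [mul_assoc]
    rw [h1, ih (fun a u => ∑ c, S u c * f a c)]
    rw [← (Fin.snocEquiv (fun _ : Fin (m + 1 + 1) => V)).sum_comp, Fintype.sum_prod_type,
      Finset.sum_comm]
    refine Finset.sum_congr rfl fun x _ => ?_
    rw [Finset.mul_sum]
    refine Finset.sum_congr rfl fun c _ => ?_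
    rw [Fin.prod_univ_castSucc]
    have e0 : (0 : Fin (m + 1 + 1)) = Fin.castSucc 0 := rfl
    simp only [Fin.snocEquiv_apply, Fin.succ_last, Fin.succ_castSucc, e0, Fin.snoc_castSucc,
      Fin.snoc_last]
    ring

theorem trace_pow (S : Matrix V V ℝ) (L : ℕ) [NeZero L] :
    (S ^ L).trace = ∑ w : ZMod L → V, ∏ p, S (w p) (w (p + 1)) := by
  obtain ⟨m, rfl⟩ : ∃ m, L = m + 1 := Nat.exists_eq_succ_of_ne_zero (NeZero.ne L)
  have h1 := pow_sum S m (fun a c => S c a)
  have h2 : (S ^ (m + 1)).trace = ∑ a, ∑ c, (S ^ m) a c * S c a := by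
    simp only [trace, Matrix.diag, pow_succ, Matrix.mul_apply]
  rw [h2, h1]
  show _ = ∑ w : Fin (m + 1) → V, ∏ p : Fin (m + 1), S (w p) (w (p + 1))
  refine Finset.sum_congr rfl fun x _ => ?_
  rw [Fin.prod_univ_castSucc, Fin.last_add_one]
  simp only [Fin.coeSucc_eq_succ]

variable (G : SimpleGraph V) [DecidableRel G.Adj]

theorem sum_trace_le (L : ℕ) [NeZero L] :
    ∑ T ∈ G.edgeFinset.powerset, (sg G T ^ L).trace ≤ 2 ^ G.edgeFinset.card * (EW G L).card := by
  simp only [trace_pow]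
  rw [Finset.sum_comm]
  have h1 : ∀ w : ZMod L → V, ∑ T ∈ G.edgeFinset.powerset, ∏ p, sg G T (w p) (w (p + 1)) ≤
      if w ∈ EW G L then (2 : ℝ) ^ G.edgeFinset.card else 0 := by
    intro w
    split_ifs with h
    · have : ∀ T ∈ G.edgeFinset.powerset, ∏ p, sg G T (w p) (w (p + 1)) ≤ 1 := fun T _ => by
        refine (le_abs_self _).trans ?_
        rw [Finset.abs_prod]
        refine Finset.prod_le_one (fun _ _ => abs_nonneg _) fun p _ => ?_
        unfold sg
        split_ifs <;> simp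
      have h2 := Finset.sum_le_card_nsmul _ _ _ this
      simpa using h2
    · by_cases hadj : ∀ p, G.Adj (w p) (w (p + 1))
      · have h2 : ∃ e : Sym2 V, ¬ Even (univ.filter fun p => s(w p, w (p + 1)) = e).card := by
          by_contra hn
          push Not at hn
          exact h (mem_filter.2 ⟨mem_univ _, hadj, hn⟩)
        obtain ⟨e, he⟩ := h2
        have he' := Nat.not_even_iff_odd.1 he
        obtain ⟨p0, hp0⟩ := card_pos.1 he'.pos
        have heE : e ∈ G.edgeFinset := by
          rw [← (mem_filter.1 hp0).2]; simpa using hadj p0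
        refine (sum_tog _ heE _ fun T => ?_).le
        have h3 : ∀ p, sg G (symmDiff T {e}) (w p) (w (p + 1)) =
            (if s(w p, w (p + 1)) = e then -1 else 1) * sg G T (w p) (w (p + 1)) := fun p => by
          split_ifs with c
          · rw [← c, sg_tog_eq]; ring
          · rw [sg_tog_ne G T e c]; ring
        simp only [h3]
        rw [Finset.prod_mul_distrib, Finset.prod_ite, prod_const, prod_const_one, he'.neg_one_pow]
        ring
      · push Not at hadj
        obtain ⟨p, hp⟩ := hadj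
        refine (Finset.sum_eq_zero fun T _ => Finset.prod_eq_zero (mem_univ p) ?_).le
        simp [sg, hp]
  refine (Finset.sum_le_sum fun w _ => h1 w).trans ?_
  rw [Finset.sum_ite_mem, univ_inter, sum_const, nsmul_eq_mul, mul_comm]

theorem trace_sq (S : Matrix V V ℝ) (hS : Sᵀ = S) (k : ℕ) :
    (S ^ (k + k)).trace = ∑ a, ∑ c, (S ^ k) a c ^ 2 := by
  simp only [trace, Matrix.diag, pow_add, Matrix.mul_apply]
  refine Finset.sum_congr rfl fun a _ => Finset.sum_congr rfl fun c _ => ?_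
  have : (S ^ k) c a = (S ^ k) a c := by
    rw [← transpose_apply (S ^ k) a c, transpose_pow, hS]
  rw [this, sq]

theorem eig_le_trace (S : Matrix V V ℝ) (hS : Sᵀ = S) (k : ℕ) (l : ℝ) (v : V → ℝ) (hv : v ≠ 0)
    (h : S *ᵥ v = l • v) : |l| ^ (k + k) ≤ (S ^ (k + k)).trace := by
  have h1 : ∀ j : ℕ, (S ^ j) *ᵥ v = l ^ j • v := fun j => by
    induction j with
    | zero => simp
    | succ j ih => rw [pow_succ', ← mulVec_mulVec, ih, mulVec_smul, h, smul_smul, pow_succ]
  have h2 : 0 < ∑ c, v c ^ 2 := by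
    obtain ⟨i, hi⟩ := Function.ne_iff.1 hv
    exact Finset.sum_pos' (fun _ _ => sq_nonneg _) ⟨i, mem_univ i, pow_pos (abs_pos.2 hi) 2 |>.trans_eq (sq_abs _)⟩
  have h3 : ∀ a, (l ^ k) ^ 2 * v a ^ 2 ≤ (∑ c, (S ^ k) a c ^ 2) * ∑ c, v c ^ 2 := fun a => by
    have a1 := congrFun (h1 k) a
    simp only [mulVec, dotProduct, Pi.smul_apply, smul_eq_mul] at a1
    rw [← mul_pow, ← a1]
    exact Finset.sum_mul_sq_le_sq_mul_sq _ _ _
  have h4 := Finset.sum_le_sum fun a (_ : a ∈ univ) => h3 a
  rw [← Finset.mul_sum, ← Finset.sum_mul] at h4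
  rw [trace_sq S hS, pow_add, ← sq, ← abs_pow, sq_abs]
  exact le_of_mul_le_mul_right h4 h2

open Classical in
theorem bad_le (k : ℕ) [NeZero (k + k)] (y : ℝ) (hy : 0 ≤ y) :
    ((G.edgeFinset.powerset.filter fun T =>
      ∃ (l : ℝ) (v : V → ℝ), v ≠ 0 ∧ sg G T *ᵥ v = l • v ∧ y ≤ |l|).card : ℝ) * y ^ (k + k) ≤
      2 ^ G.edgeFinset.card * (EW G (k + k)).card := by
  have hs : ∀ T, (sg G T)ᵀ = sg G T := fun T => by
    ext a c; exact sg_symm G T c a
  refine le_trans ?_ (sum_trace_le G (k + k))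
  rw [← nsmul_eq_mul]
  refine (Finset.card_nsmul_le_sum _ (fun T => (sg G T ^ (k + k)).trace) _ fun T hT => ?_).trans
    (Finset.sum_le_sum_of_subset_of_nonneg (filter_subset _ _) fun T _ _ => ?_)
  · obtain ⟨l, v, a1, a2, a3⟩ := (mem_filter.1 hT).2
    exact (pow_le_pow_left₀ hy a3 _).trans (eig_le_trace _ (hs T) k l v a1 a2)
  · rw [trace_sq _ (hs T)]
    positivity

end Pool.Agent.MP_df0aa7_co.h16

end MrgPart6

-- ======== part 7: formerly Pool.Agent.MP_df0aa7_co.h16.Loc
section MrgPart7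

set_option autoImplicit false
open Finset Matrix

namespace Pool.Agent.MP_df0aa7_co.h16

variable {V : Type} [Fintype V] [DecidableEq V]

theorem quad_le_of_eig (B : Matrix V V ℝ) (hB : Bᵀ = B) (R : ℝ)
    (h : ∀ (l : ℝ) (v : V → ℝ), v ≠ 0 → B *ᵥ v = l • v → l ≤ R) (x : V → ℝ) :
    x ⬝ᵥ B *ᵥ x ≤ R * ∑ u, x u ^ 2 := by
  have hH : (R • (1 : Matrix V V ℝ) - B).IsHermitian := by
    rw [IsHermitian, conjTranspose_eq_transpose_of_trivial, transpose_sub, transpose_smul,
      transpose_one, hB]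
  have hP : (R • (1 : Matrix V V ℝ) - B).PosSemidef := by
    rw [hH.posSemidef_iff_eigenvalues_nonneg]
    intro i
    have h1 := hH.mulVec_eigenvectorBasis i
    rw [sub_mulVec, smul_mulVec, one_mulVec] at h1
    have h2 := h (R - hH.eigenvalues i) (hH.eigenvectorBasis i) (fun h0 =>
      hH.eigenvectorBasis.orthonormal.ne_zero i (by ext j; exact congrFun h0 j))
      (by rw [sub_smul, ← h1]; abel)
    simp only [Pi.zero_apply]
    linarith
  have h3 := hP.dotProduct_mulVec_nonneg x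
  rw [star_trivial, sub_mulVec, smul_mulVec, one_mulVec, dotProduct_sub, dotProduct_smul,
    smul_eq_mul] at h3
  have h4 : x ⬝ᵥ x = ∑ u, x u ^ 2 := by simp only [dotProduct, sq]
  rw [← h4]; linarith

variable (G : SimpleGraph V) [DecidableRel G.Adj]

theorem ram_quad {d : ℕ} (hc : G.Connected) (hr : G.IsRegularOfDegree d) {R : ℝ} (hR : 0 ≤ R)
    (h : ∀ (l : ℝ) (v : V → ℝ), v ≠ 0 → G.adjMatrix ℝ *ᵥ v = l • v → |l| ≠ d → |l| ≤ R)
    (x : V → ℝ) :
    x ⬝ᵥ G.adjMatrix ℝ *ᵥ x ≤ R * ∑ u, x u ^ 2 + d / Fintype.card V * (∑ u, x u) ^ 2 := by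
  have := hc.nonempty
  have hn : (0 : ℝ) < Fintype.card V := by exact_mod_cast Fintype.card_pos
  set c : ℝ := d / Fintype.card V with hcd
  let J : Matrix V V ℝ := Matrix.of fun _ _ => c
  have hJ : ∀ v : V → ℝ, J *ᵥ v = fun _ => c * ∑ u, v u := fun v => by
    ext i; simp [J, mulVec, dotProduct, Finset.mul_sum]
  have hA : ∀ v : V → ℝ, ∑ i, (G.adjMatrix ℝ *ᵥ v) i = d * ∑ u, v u := fun v => by
    have a1 : ∑ i, (G.adjMatrix ℝ *ᵥ v) i = (fun _ => (1 : ℝ)) ⬝ᵥ G.adjMatrix ℝ *ᵥ v := by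
      simp [dotProduct]
    rw [a1, dotProduct_mulVec, Finset.mul_sum, dotProduct]
    refine Finset.sum_congr rfl fun u _ => ?_
    rw [SimpleGraph.adjMatrix_vecMul_apply]
    simp [hr.degree_eq u]
  have h1 := quad_le_of_eig (G.adjMatrix ℝ - J) (by
    rw [transpose_sub, SimpleGraph.transpose_adjMatrix]; rfl) R (fun l v hv hl => by
      by_contra hlt
      have hl0 : R < l := not_le.1 hlt
      have a1 : ∑ i, ((G.adjMatrix ℝ - J) *ᵥ v) i = 0 := by
        rw [sub_mulVec]
        simp only [Pi.sub_apply, Finset.sum_sub_distrib, hA, hJ, sum_const, card_univ,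
          nsmul_eq_mul, hcd]
        field_simp
        ring
      have a2 : ∑ u, v u = 0 := by
        rw [hl] at a1
        simp only [Pi.smul_apply, smul_eq_mul, ← Finset.mul_sum] at a1
        exact (mul_eq_zero.1 a1).resolve_left (by linarith)
      have a3 : G.adjMatrix ℝ *ᵥ v = l • v := by
        rw [← hl, sub_mulVec, hJ, a2]; ext i; simp
      have a4 : |l| = l := abs_of_nonneg (by linarith)
      by_cases a5 : l = d
      · have a6 : G.lapMatrix ℝ *ᵥ v = 0 := by
          ext i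
          rw [SimpleGraph.lapMatrix_mulVec_apply, ← SimpleGraph.adjMatrix_mulVec_apply, a3,
            hr.degree_eq i, a5]
          simp
        have a7 := (G.lapMatrix_mulVec_eq_zero_iff_forall_reachable).1 a6
        apply hv
        ext i
        have a8 : ∑ u, v u = Fintype.card V * v i := by
          rw [Finset.sum_congr rfl fun u _ => a7 u i (hc.preconnected u i)]
          simp
        rw [a2] at a8
        exact (mul_eq_zero.1 a8.symm).resolve_left hn.ne'
      · have := h l v hv a3 (by rwa [a4])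
        linarith) x
  rw [sub_mulVec, dotProduct_sub, hJ] at h1
  have h2 : (x ⬝ᵥ fun _ => c * ∑ u, x u) = c * (∑ u, x u) ^ 2 := by
    rw [dotProduct, ← Finset.sum_mul]; ring
  rw [h2] at h1
  linarith

theorem locB_of_quad {d D : ℕ} (hd : ∀ v, G.degree v ≤ d) {R c ρ : ℝ} (hc : 0 ≤ c) (hρ : 0 < ρ)
    (hq : ∀ x : V → ℝ, x ⬝ᵥ G.adjMatrix ℝ *ᵥ x ≤ R * ∑ u, x u ^ 2 + c * (∑ u, x u) ^ 2)
    (hR : 0 ≤ R) (hs : R + c * (d + 1) ^ D ≤ ρ) : LocB G D ρ := by
  intro a
  refine OpB_of_quad _ (fun u v h => ⟨h.2.1, h.1, h.2.2.symm⟩) hρ fun x _ => ?_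
  set B := ball G a D with hB
  let y : V → ℝ := fun u => if u ∈ B then x u else 0
  have h1 : ∑ v, ∑ u, (if u ∈ B ∧ v ∈ B ∧ G.Adj u v then x u * x v else 0) =
      y ⬝ᵥ G.adjMatrix ℝ *ᵥ y := by
    simp only [dotProduct, mulVec, Finset.mul_sum, SimpleGraph.adjMatrix_apply]
    refine Finset.sum_congr rfl fun v _ => Finset.sum_congr rfl fun u _ => ?_
    by_cases c1 : u ∈ B <;> by_cases c2 : v ∈ B <;> by_cases c3 : G.Adj u v <;>
      simp [y, c1, c2, c3, G.adj_comm v u, mul_comm]
  have h2 : ∑ u, y u ^ 2 ≤ ∑ u, x u ^ 2 := Finset.sum_le_sum fun u _ => by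
    simp only [y]; split_ifs
    · exact le_rfl
    · simpa using sq_nonneg (x u)
  have h3 : (∑ u, y u) ^ 2 ≤ (d + 1) ^ D * ∑ u, x u ^ 2 := by
    have a1 : ∑ u, y u = ∑ u ∈ B, x u := by
      simp only [y]; rw [Finset.sum_ite_mem, univ_inter]
    have a2 : (B.card : ℝ) ≤ (d + 1) ^ D := by exact_mod_cast ball_card G hd a D
    have a3 : ∑ u ∈ B, x u ^ 2 ≤ ∑ u, x u ^ 2 :=
      Finset.sum_le_sum_of_subset_of_nonneg (subset_univ _) fun _ _ _ => sq_nonneg _
    rw [a1]
    refine sq_sum_le_card_mul_sum_sq.trans ?_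
    gcongr
  have h4 : 0 ≤ ∑ u, x u ^ 2 := Finset.sum_nonneg fun _ _ => sq_nonneg _
  rw [h1]
  calc y ⬝ᵥ G.adjMatrix ℝ *ᵥ y ≤ R * ∑ u, y u ^ 2 + c * (∑ u, y u) ^ 2 := hq y
    _ ≤ R * ∑ u, x u ^ 2 + c * ((d + 1) ^ D * ∑ u, x u ^ 2) := by gcongr
    _ = (R + c * (d + 1) ^ D) * ∑ u, x u ^ 2 := by ring
    _ ≤ ρ * ∑ u, x u ^ 2 := by gcongr

end Pool.Agent.MP_df0aa7_co.h16

end MrgPart7

-- ======== part 8: formerly Pool.Agent.MP_df0aa7_co.h16.Par
section MrgPart8

set_option autoImplicit false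
open Filter Topology

namespace Pool.Agent.MP_df0aa7_co.h16

theorem ev_sq (C c : ℕ) : ∃ i0 : ℕ, ∀ i, i0 ≤ i → C * (i + c) ^ 2 ≤ 2 ^ i := by
  have h1 := tendsto_pow_const_div_const_pow_of_one_lt 2 (show (1 : ℝ) < 2 by norm_num)
  have h2 : (0 : ℝ) < 1 / (C * 2 ^ c + 1) := by positivity
  obtain ⟨i0, hi0⟩ := eventually_atTop.1 (h1.eventually (gt_mem_nhds h2))
  refine ⟨i0, fun i hi => ?_⟩
  have h3 := hi0 (i + c) (by omega)
  rw [div_lt_div_iff₀ (by positivity) (by positivity), one_mul, pow_add] at h3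
  have h4 : ((C : ℝ) * ((i + c : ℕ) : ℝ) ^ 2) * 2 ^ c ≤ 2 ^ i * 2 ^ c := by
    have : (0 : ℝ) ≤ ((i + c : ℕ) : ℝ) ^ 2 := by positivity
    nlinarith
  have h5 := le_of_mul_le_mul_right h4 (by positivity)
  exact_mod_cast h5

theorem two_mul_pow_le (b : ℕ) (hb : 1 ≤ b) : 2 * b ^ b ≤ (b + 1) ^ b := by
  have h1 := one_add_mul_le_pow (show (-2 : ℝ) ≤ 1 / b from le_trans (by norm_num)
    (by positivity : (0 : ℝ) ≤ 1 / b)) b
  have hb' : (0 : ℝ) < b := by exact_mod_cast hb
  have h2 : (1 : ℝ) + b * (1 / b) = 2 := by field_simp; norm_num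
  have h3 : (1 : ℝ) + 1 / b = (b + 1) / b := by field_simp
  rw [h2, h3, div_pow, le_div_iff₀ (by positivity)] at h1
  exact_mod_cast h1

theorem params (d : ℕ) {γ δ η : ℝ} (hγ : 1 < γ) (hδ : 0 < δ) (hη : 0 < η) :
    ∃ n0 : ℕ, ∀ n : ℕ, n0 ≤ n → ∃ k b D q : ℕ, 0 < k ∧
      (k + k + 1) * b ^ D < (b + 1) ^ D ∧ 2 * (k + k) < b * (q + 1) ∧
      (d : ℝ) * (d + 1) ^ (D + D) ≤ η * n ∧
      (4 * ((k + k : ℕ) : ℝ) ^ 2 + 1) ^ (2 * q + 1) * (n * d ^ q) ≤ δ * γ ^ (k + k) := by
  obtain ⟨M, hM⟩ := pow_unbounded_of_one_lt (2 : ℝ) hγ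
  have hM1 : 1 ≤ M := by
    rcases Nat.eq_zero_or_pos M with rfl | h
    · norm_num at hM
    · exact h
  obtain ⟨c, hc⟩ := pow_unbounded_of_one_lt ((4 * M + 1 : ℝ) + (d + 1) + 1 / η + 1 / δ)
    (show (1 : ℝ) < 2 by norm_num)
  have p1 : (0 : ℝ) < 1 / η := by positivity
  have p2 : (0 : ℝ) < 1 / δ := by positivity
  have p3 : (0 : ℝ) ≤ M := by positivity
  have p4 : (0 : ℝ) ≤ d := by positivity
  have c1 : 4 * M + 1 ≤ 2 ^ c := by
    have : (4 * M + 1 : ℝ) ≤ 2 ^ c := by linarith
    exact_mod_cast this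
  have c2 : (d + 1 : ℝ) ≤ 2 ^ c := by linarith
  have c3 : 1 ≤ η * 2 ^ c := by
    have : 1 / η ≤ 2 ^ c := by linarith
    rwa [div_le_iff₀' hη] at this
  have c4 : 1 ≤ δ * 2 ^ c := by
    have : 1 / δ ≤ 2 ^ c := by linarith
    rwa [div_le_iff₀' hδ] at this
  obtain ⟨i0, hi0⟩ := ev_sq (c * (144 * M + 2) + 4) (c + 2)
  refine ⟨2 ^ 2 ^ i0 + 1, fun n hn => ?_⟩
  have hex : ∃ j, n ≤ 2 ^ 2 ^ j := ⟨n, (Nat.lt_two_pow_self.trans Nat.lt_two_pow_self).le.trans
    (le_refl _)⟩
  have hj := Nat.find_spec hex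
  have hj0 : i0 < Nat.find hex := by
    by_contra h
    have : 2 ^ 2 ^ Nat.find hex ≤ 2 ^ 2 ^ i0 :=
      Nat.pow_le_pow_right (by norm_num) (Nat.pow_le_pow_right (by norm_num) (by omega))
    omega
  obtain ⟨i, hi⟩ : ∃ i, Nat.find hex = i + 1 := ⟨Nat.find hex - 1, by omega⟩
  have hlow : 2 ^ 2 ^ i < n := not_le.1 (Nat.find_min hex (by omega))
  rw [hi] at hj
  have hbig := hi0 i (by omega)
  set e := i + (c + 2) with he
  set N := 2 ^ (i + 1) with hN
  have hN2 : N = 2 * 2 ^ i := by rw [hN]; ring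
  have he1 : 1 ≤ e := by omega
  have hee : e ≤ e ^ 2 := by nlinarith
  have hNp : 0 < N := by positivity
  have hL : 4 * M * N + 1 < 2 ^ e := by
    have a1 : 2 ^ e = 2 * (2 ^ c * N) := by rw [he, hN]; ring
    have a2 := Nat.mul_le_mul_right N c1
    nlinarith
  have hb : 1 ≤ 72 * M * e := Nat.mul_pos (by omega) he1
  have hkk : 2 * M * N + 2 * M * N = 4 * M * N := by ring
  refine ⟨2 * M * N, 72 * M * e, 72 * M * e * e, 2 * (4 * M * N) / (72 * M * e),
    Nat.mul_pos (by omega) hNp, ?_, ?_, ?_, ?_⟩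
  · rw [hkk, pow_mul (72 * M * e) (72 * M * e) e, pow_mul (72 * M * e + 1) (72 * M * e) e]
    have a1 := Nat.pow_le_pow_left (two_mul_pow_le _ hb) e
    rw [mul_pow] at a1
    exact lt_of_lt_of_le (Nat.mul_lt_mul_of_pos_right hL (by positivity)) a1
  · rw [hkk]; exact Nat.lt_mul_div_succ _ hb
  · have a1 : c * (72 * M * e * e + 72 * M * e * e) + c + c ≤ 2 ^ i := by
      have : c * 2 ≤ c * 2 * e ^ 2 := Nat.le_mul_of_pos_right _ (by omega)
      nlinarith
    have a2 : (d : ℝ) * (d + 1) ^ (72 * M * e * e + 72 * M * e * e) ≤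
        2 ^ c * (2 ^ c) ^ (72 * M * e * e + 72 * M * e * e) := by
      gcongr; linarith
    have a3 : ((2 : ℝ) ^ c * (2 ^ c) ^ (72 * M * e * e + 72 * M * e * e)) * 2 ^ c ≤ n := by
      rw [← pow_mul, ← pow_add, ← pow_add]
      have b1 : (2 : ℝ) ^ (c + c * (72 * M * e * e + 72 * M * e * e) + c) ≤ 2 ^ 2 ^ i :=
        pow_le_pow_right₀ (by norm_num) (by omega)
      have b2 : (2 : ℝ) ^ 2 ^ i ≤ n := by exact_mod_cast hlow.le
      linarith
    have a4 : (0 : ℝ) ≤ 2 ^ c * (2 ^ c) ^ (72 * M * e * e + 72 * M * e * e) := by positivity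
    nlinarith
  · rw [hkk]
    set q := 2 * (4 * M * N) / (72 * M * e) with hq
    have a1 : 9 * e * q ≤ N := by
      have b1 : 72 * M * e * q ≤ 2 * (4 * M * N) := Nat.mul_div_le _ _
      have b2 : (8 * M) * (9 * e * q) ≤ (8 * M) * N := by nlinarith
      exact Nat.le_of_mul_le_mul_left b2 (by omega)
    have a2 : 4 * e ≤ N := by
      have := Nat.mul_le_mul_right (e ^ 2) (Nat.le_add_left 4 (c * (144 * M + 2)))
      omega
    have a3 : c ≤ N := by omega
    have a4 : 4 * (4 * M * N) ^ 2 + 1 ≤ 2 ^ (2 * e + 2) := by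
      have b1 : 2 ^ (2 * e + 2) = 4 * (2 ^ e) ^ 2 := by ring
      have b2 : (4 * M * N) ^ 2 < (2 ^ e) ^ 2 := Nat.pow_lt_pow_left (by omega) (by norm_num)
      omega
    have a4' : (4 * ((4 * M * N : ℕ) : ℝ) ^ 2 + 1) ≤ 2 ^ (2 * e + 2) := by exact_mod_cast a4
    have a5 : (d : ℝ) ≤ 2 ^ e :=
      le_trans (by linarith) (pow_le_pow_right₀ (by norm_num) (show c ≤ e by omega))
    have a6 : (n : ℝ) ≤ 2 ^ N := by exact_mod_cast hj
    have a7 : (2 : ℝ) ^ (4 * N) ≤ γ ^ (4 * M * N) := by
      rw [show 4 * M * N = M * (4 * N) by ring, pow_mul γ]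
      exact pow_le_pow_left₀ (by norm_num) hM.le _
    have a8 : (2 * e + 2) * (2 * q + 1) + (N + e * q) + c ≤ 4 * N := by nlinarith
    have a9 : (4 * ((4 * M * N : ℕ) : ℝ) ^ 2 + 1) ^ (2 * q + 1) * (n * d ^ q) ≤
        (2 ^ (2 * e + 2)) ^ (2 * q + 1) * (2 ^ N * (2 ^ e) ^ q) := by gcongr
    rw [← pow_mul, ← pow_mul, ← pow_add, ← pow_add] at a9
    have a10 : (2 : ℝ) ^ ((2 * e + 2) * (2 * q + 1) + (N + e * q)) * 2 ^ c ≤ 2 ^ (4 * N) := by
      rw [← pow_add]; exact pow_le_pow_right₀ (by norm_num) a8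
    have a11 : (0 : ℝ) ≤ 2 ^ ((2 * e + 2) * (2 * q + 1) + (N + e * q)) := by positivity
    nlinarith

end Pool.Agent.MP_df0aa7_co.h16

end MrgPart8

-- ======== part 9: formerly Pool.Agent.MP_df0aa7_co.h16.Inter
section MrgPart9

set_option autoImplicit false
open Polynomial Filter Topology

namespace Pool.Agent.MP_df0aa7_co.h16

/-- A quotient of real polynomials mapping the upper half plane into its closure has
nonnegative derivative at real points where the denominator does not vanish. -/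
theorem deriv_quot_nonneg (p q : ℝ[X])
    (h : ∀ z : ℂ, 0 < z.im → 0 ≤ (aeval z p / aeval z q).im) (x : ℝ) (hx : q.eval x ≠ 0) :
    0 ≤ deriv (fun y : ℝ => p.eval y / q.eval y) x := by
  set D : ℝ := ((derivative p).eval x * q.eval x - p.eval x * (derivative q).eval x) /
    (q.eval x) ^ 2 with hD
  have h1 : HasDerivAt (fun y : ℝ => p.eval y / q.eval y) D x :=
    (p.hasDerivAt x).div (q.hasDerivAt x) hx
  rw [h1.deriv]
  have hev : ∀ r : ℝ[X], aeval (x : ℂ) r = ((r.eval x : ℝ) : ℂ) := fun r => by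
    have := aeval_algebraMap_apply ℂ x r
    simpa using this
  have hq : aeval (x : ℂ) q ≠ 0 := by rw [hev]; exact_mod_cast hx
  have h2 : HasDerivAt (fun z : ℂ => aeval z p / aeval z q) (D : ℂ) (x : ℂ) := by
    have := (p.hasDerivAt_aeval (x : ℂ)).div (q.hasDerivAt_aeval (x : ℂ)) hq
    refine this.congr_deriv ?_
    simp only [hev, hD]
    push_cast
    rfl
  have h3 : HasDerivAt (fun y : ℝ => (x : ℂ) + (y : ℂ) * Complex.I) Complex.I 0 := by
    have := ((Complex.ofRealCLM.hasDerivAt (x := (0 : ℝ))).mul_const Complex.I).const_add (x : ℂ)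
    simpa using this
  have h4 : HasDerivAt (fun y : ℝ => aeval ((x : ℂ) + (y : ℂ) * Complex.I) p /
      aeval ((x : ℂ) + (y : ℂ) * Complex.I) q) ((D : ℂ) * Complex.I) 0 := by
    have h2' : HasDerivAt (fun z : ℂ => aeval z p / aeval z q) (D : ℂ)
        ((fun y : ℝ => (x : ℂ) + (y : ℂ) * Complex.I) 0) := by simpa using h2
    have := h2'.comp_of_eq (0 : ℝ) h3 rfl
    exact this
  have h5 : HasDerivAt (fun y : ℝ => (aeval ((x : ℂ) + (y : ℂ) * Complex.I) p /
      aeval ((x : ℂ) + (y : ℂ) * Complex.I) q).im) D 0 := by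
    have := Complex.imCLM.hasFDerivAt.comp_hasDerivAt (0 : ℝ) h4
    simpa [Function.comp_def] using this
  have h6 := (hasDerivAt_iff_tendsto_slope_zero.1 h5).mono_left
    (nhdsWithin_mono (0 : ℝ) (fun y (hy : y ∈ Set.Ioi (0 : ℝ)) => ne_of_gt hy))
  refine ge_of_tendsto h6 ?_
  filter_upwards [self_mem_nhdsWithin] with y hy
  have hy' : (0 : ℝ) < y := hy
  have h0 : (aeval ((x : ℂ) + ((0 : ℝ) : ℂ) * Complex.I) p /
      aeval ((x : ℂ) + ((0 : ℝ) : ℂ) * Complex.I) q).im = 0 := by
    simp only [Complex.ofReal_zero, zero_mul, add_zero, hev]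
    rw [← Complex.ofReal_div, Complex.ofReal_im]
  rw [h0, sub_zero, zero_add, smul_eq_mul]
  exact mul_nonneg (inv_nonneg.2 hy'.le) (h _ (by simpa using hy'))

theorem pos_of_noroot (q : ℝ[X]) (hl : 0 < q.leadingCoeff) (y : ℝ)
    (hy : ∀ x, y ≤ x → q.eval x ≠ 0) : 0 < q.eval y := by
  have hev : ∀ᶠ x in atTop, 0 < q.eval x := by
    have h1 := isEquivalent_atTop_lead q
    have h2 : ∀ᶠ x : ℝ in atTop, 0 < q.leadingCoeff * x ^ q.natDegree := by
      filter_upwards [eventually_gt_atTop 0] with x hx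
      positivity
    exact h1.eventually_pos h2
  obtain ⟨b, hb1, hb2⟩ := (hev.and (eventually_ge_atTop y)).exists
  by_contra hn
  have hn' : q.eval y ≤ 0 := not_lt.1 hn
  obtain ⟨c, hc, hc0⟩ := intermediate_value_Icc hb2 (q.continuous.continuousOn)
    (show (0 : ℝ) ∈ Set.Icc (q.eval y) (q.eval b) from ⟨hn', hb1.le⟩)
  exact hy c hc.1 hc0

theorem quot_mono (p q : ℝ[X])
    (h : ∀ z : ℂ, 0 < z.im → 0 ≤ (aeval z p / aeval z q).im) (y : ℝ)
    (hy : ∀ x, y ≤ x → q.eval x ≠ 0) :
    MonotoneOn (fun x : ℝ => p.eval x / q.eval x) (Set.Ici y) := by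
  refine monotoneOn_of_deriv_nonneg (convex_Ici y) ?_ ?_ ?_
  · exact p.continuous.continuousOn.div q.continuous.continuousOn (fun x hx => hy x hx)
  · intro x hx
    have hx' : y ≤ x := interior_subset hx
    exact ((p.hasDerivAt x).div (q.hasDerivAt x) (hy x hx')).differentiableAt.differentiableWithinAt
  · intro x hx
    exact deriv_quot_nonneg p q h x (hy x (interior_subset hx))

theorem le_of_quot (p q : ℝ[X]) (hl : 0 < q.leadingCoeff) (hd : p.degree = q.degree)
    (hc : p.leadingCoeff = q.leadingCoeff)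
    (h : ∀ z : ℂ, 0 < z.im → 0 ≤ (aeval z p / aeval z q).im) (y : ℝ)
    (hy : ∀ x, y ≤ x → q.eval x ≠ 0) : p.eval y ≤ q.eval y := by
  have h1 := div_tendsto_atTop_leadingCoeff_div_of_degree_eq p q hd
  rw [hc, div_self hl.ne'] at h1
  have h2 : p.eval y / q.eval y ≤ 1 := by
    refine ge_of_tendsto h1 ?_
    filter_upwards [eventually_ge_atTop y] with x hx
    exact quot_mono p q h y hy (Set.mem_Ici.2 le_rfl) hx hx
  rwa [div_le_one (pos_of_noroot q hl y hy)] at h2

/-- The interlacing step. -/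
theorem inter_step (p1 p2 q : ℝ[X]) (hl : 0 < q.leadingCoeff)
    (hd1 : p1.degree = q.degree) (hc1 : p1.leadingCoeff = q.leadingCoeff)
    (hd2 : p2.degree = q.degree) (hc2 : p2.leadingCoeff = q.leadingCoeff)
    (h1 : ∀ z : ℂ, 0 < z.im → 0 ≤ (aeval z p1 / aeval z q).im)
    (h2 : ∀ z : ℂ, 0 < z.im → 0 ≤ (aeval z p2 / aeval z q).im)
    (x0 : ℝ) (hpos : ∀ x, x0 ≤ x → 0 < p1.eval x + p2.eval x) :
    (∀ x, x0 ≤ x → 0 < p1.eval x) ∨ (∀ x, x0 ≤ x → 0 < p2.eval x) := by
  have hq0 : q ≠ 0 := by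
    intro h; rw [h, leadingCoeff_zero] at hl; exact lt_irrefl _ hl
  have hno : ∀ x, x0 ≤ x → q.eval x ≠ 0 := by
    by_contra hcon
    push Not at hcon
    obtain ⟨x1, hx1, hx1'⟩ := hcon
    have hfin : ({x | x0 ≤ x ∧ q.eval x = 0} : Set ℝ).Finite :=
      (finite_setOfPred_isRoot hq0).subset (fun x hx => hx.2)
    obtain ⟨m, hm, hmax⟩ := hfin.exists_maximal ⟨x1, hx1, hx1'⟩
    have hbig : ∀ x, m < x → p1.eval x + p2.eval x ≤ 2 * q.eval x := by
      intro x hx
      have hn : ∀ x', x ≤ x' → q.eval x' ≠ 0 := by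
        intro x' hx' h0
        have := hmax (show x' ∈ {x | x0 ≤ x ∧ q.eval x = 0} from ⟨by linarith [hm.1], h0⟩)
          (by linarith)
        linarith
      have a1 := le_of_quot p1 q hl hd1 hc1 h1 x hn
      have a2 := le_of_quot p2 q hl hd2 hc2 h2 x hn
      linarith
    have hcl : p1.eval m + p2.eval m ≤ 2 * q.eval m := by
      have t1 : Tendsto (fun x => p1.eval x + p2.eval x) (𝓝[>] m) (𝓝 (p1.eval m + p2.eval m)) :=
        ((p1.continuous.add p2.continuous).tendsto m).mono_left nhdsWithin_le_nhds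
      have t2 : Tendsto (fun x => 2 * q.eval x) (𝓝[>] m) (𝓝 (2 * q.eval m)) :=
        ((continuous_const.mul q.continuous).tendsto m).mono_left nhdsWithin_le_nhds
      refine le_of_tendsto_of_tendsto t1 t2 ?_
      filter_upwards [self_mem_nhdsWithin] with x hx using hbig x hx
    have := hpos m hm.1
    rw [hm.2] at hcl
    linarith
  have key : ∀ p : ℝ[X], (∀ z : ℂ, 0 < z.im → 0 ≤ (aeval z p / aeval z q).im) →
      0 < p.eval x0 → ∀ x, x0 ≤ x → 0 < p.eval x := by
    intro p hp h0 x hx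
    have hq1 := pos_of_noroot q hl x0 hno
    have hq2 := pos_of_noroot q hl x (fun x' hx' => hno x' (hx.trans hx'))
    have := quot_mono p q hp x0 hno (Set.mem_Ici.2 le_rfl) hx hx
    have h3 : 0 < p.eval x / q.eval x := lt_of_lt_of_le (div_pos h0 hq1) this
    exact (div_pos_iff_of_pos_right hq2).1 h3
  have := hpos x0 le_rfl
  by_cases hp : 0 < p1.eval x0
  · exact Or.inl (key p1 h1 hp)
  · exact Or.inr (key p2 h2 (by linarith [not_lt.1 hp]))

end Pool.Agent.MP_df0aa7_co.h16

end MrgPart9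

-- ======== part 10: formerly Pool.Agent.MP_df0aa7_co.h16.MSS
section MrgPart10

set_option autoImplicit false
open Polynomial Matrix Finset

namespace Pool.Agent.MP_df0aa7_co.h16

variable {n ι : Type} [Fintype n] [DecidableEq n] [DecidableEq ι]

/-- positive definite imaginary part -/
def UP (M : Matrix n n ℂ) : Prop := ∀ v : n → ℂ, v ≠ 0 → 0 < (star v ⬝ᵥ M *ᵥ v).im

def cx (N : Matrix n n ℝ) : Matrix n n ℂ := N.map Complex.ofReal

def R1 (a : n → ℝ) : Matrix n n ℝ := vecMulVec a a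

theorem UP.det_ne {M : Matrix n n ℂ} (h : UP M) : M.det ≠ 0 := by
  intro h0
  obtain ⟨v, hv, hv0⟩ := exists_mulVec_eq_zero_iff.2 h0
  have := h v hv
  rw [hv0] at this
  simp at this

omit [DecidableEq n] in
theorem quad_R1 (a : n → ℝ) (v : n → ℂ) :
    star v ⬝ᵥ cx (R1 a) *ᵥ v = ((Complex.normSq (∑ i, (a i : ℂ) * v i) : ℝ) : ℂ) := by
  rw [Complex.normSq_eq_conj_mul_self, map_sum, Finset.sum_mul_sum]
  simp only [dotProduct, mulVec, cx, R1, map_apply, vecMulVec_apply, Finset.mul_sum, Pi.star_apply]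
  refine Finset.sum_congr rfl fun i _ => Finset.sum_congr rfl fun j _ => ?_
  simp only [Complex.star_def, map_mul, Complex.conj_ofReal]
  push_cast
  ring

omit [DecidableEq n] in
theorem UP.add_R1 {M : Matrix n n ℂ} (h : UP M) (a : n → ℝ) (t : ℂ) (ht : 0 ≤ t.im) :
    UP (M + t • cx (R1 a)) := by
  intro v hv
  rw [add_mulVec, dotProduct_add, smul_mulVec, dotProduct_smul, quad_R1, Complex.add_im,
    smul_eq_mul, Complex.im_mul_ofReal]
  have := h v hv
  have h2 := mul_nonneg ht (Complex.normSq_nonneg (∑ i, (a i : ℂ) * v i))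
  linarith

omit [Fintype n] [DecidableEq n] in
theorem cx_add (N N' : Matrix n n ℝ) : cx (N + N') = cx N + cx N' := by
  ext i j; simp [cx]

omit [DecidableEq n] in
theorem UP.sub_sym {M : Matrix n n ℂ} (h : UP M) (N : Matrix n n ℝ) (hN : Nᵀ = N) :
    UP (M - cx N) := by
  intro v hv
  rw [sub_mulVec, dotProduct_sub, Complex.sub_im]
  have h1 : (star v ⬝ᵥ cx N *ᵥ v).im = 0 := by
    rw [← Complex.conj_eq_iff_im]
    simp only [dotProduct, mulVec, cx, map_apply, Finset.mul_sum, Pi.star_apply, map_sum, map_mul,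
      Complex.star_def, Complex.conj_ofReal, Complex.conj_conj]
    rw [Finset.sum_comm]
    refine Finset.sum_congr rfl fun i _ => Finset.sum_congr rfl fun j _ => ?_
    have : N j i = N i j := by rw [← transpose_apply N i j, hN]
    rw [this]; ring
  rw [h1, sub_zero]
  exact h v hv

theorem det_affine {M : Matrix n n ℂ} (h : M.det ≠ 0) (a : n → ℝ) :
    ∃ β : ℂ, ∀ t : ℂ, (M + t • cx (R1 a)).det = M.det + t * β := by
  let u : n → ℂ := fun i => (a i : ℂ)
  refine ⟨M.det * (replicateRow Unit u * M⁻¹ * replicateCol Unit u) () (), fun t => ?_⟩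
  have h1 : t • cx (R1 a) = replicateCol Unit (t • u) * replicateRow Unit u := by
    rw [← vecMulVec_eq Unit]
    ext i j
    simp [cx, R1, vecMulVec_apply, u, mul_assoc]
  rw [h1, det_add_replicateCol_mul_replicateRow (isUnit_iff_ne_zero.2 h),
    det_unique (n := Unit), replicateCol_smul, Matrix.mul_smul]
  simp only [Matrix.add_apply, one_apply_eq, Matrix.smul_apply, smul_eq_mul]
  ring

variable (a : ι → Bool → n → ℝ)

def KK (F T : Finset ι) : Matrix n n ℝ := ∑ i ∈ F, R1 (a i (decide (i ∈ T)))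

noncomputable def Phi (F : Finset ι) (M : Matrix n n ℂ) : ℂ :=
  ∑ T ∈ F.powerset, (M - cx (KK a F T)).det

noncomputable def PP (F : Finset ι) (N : Matrix n n ℝ) : ℝ[X] :=
  ∑ T ∈ F.powerset, (N + KK a F T).charpoly

omit [Fintype n] [DecidableEq n] in
theorem KK_symm (F T : Finset ι) : (KK a F T)ᵀ = KK a F T := by
  ext i j
  simp [KK, R1, Matrix.sum_apply, vecMulVec_apply, mul_comm]

omit [Fintype n] [DecidableEq n] in
theorem KK_ins0 {F T : Finset ι} {i : ι} (hi : i ∉ F) (hT : T ⊆ F) :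
    KK a (insert i F) T = R1 (a i false) + KK a F T := by
  have : i ∉ T := fun h => hi (hT h)
  simp [KK, Finset.sum_insert hi, this]

omit [Fintype n] [DecidableEq n] in
theorem KK_ins1 {F T : Finset ι} {i : ι} (hi : i ∉ F) :
    KK a (insert i F) (insert i T) = R1 (a i true) + KK a F T := by
  simp only [KK, Finset.sum_insert hi, mem_insert_self, decide_true]
  congr 1
  refine Finset.sum_congr rfl fun j hj => ?_
  have : j ≠ i := fun h => hi (h ▸ hj)
  simp [this]

theorem Phi_ins {F : Finset ι} {i : ι} (hi : i ∉ F) (M : Matrix n n ℂ) :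
    Phi a (insert i F) M = Phi a F (M + (-1 : ℂ) • cx (R1 (a i false))) +
      Phi a F (M + (-1 : ℂ) • cx (R1 (a i true))) := by
  unfold Phi
  rw [sum_powerset_insert hi]
  congr 1
  · refine Finset.sum_congr rfl fun T hT => ?_
    rw [KK_ins0 a hi (mem_powerset.1 hT), cx_add]
    congr 1
    simp only [neg_smul, one_smul]; abel
  · refine Finset.sum_congr rfl fun T _ => ?_
    rw [KK_ins1 a hi, cx_add]
    congr 1
    simp only [neg_smul, one_smul]; abel

theorem PP_ins {F : Finset ι} {i : ι} (hi : i ∉ F) (N : Matrix n n ℝ) :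
    PP a (insert i F) N = PP a F (N + R1 (a i false)) + PP a F (N + R1 (a i true)) := by
  unfold PP
  rw [sum_powerset_insert hi]
  congr 1
  · refine Finset.sum_congr rfl fun T hT => ?_
    rw [KK_ins0 a hi (mem_powerset.1 hT), add_assoc]
  · refine Finset.sum_congr rfl fun T _ => ?_
    rw [KK_ins1 a hi, add_assoc]

theorem Phi_affine (F : Finset ι) {M : Matrix n n ℂ} (h : UP M) (b : n → ℝ) :
    ∃ β : ℂ, ∀ t : ℂ, Phi a F (M + t • cx (R1 b)) = Phi a F M + t * β := by
  have := fun T : Finset ι => det_affine (h.sub_sym _ (KK_symm a F T)).det_ne b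
  choose β hβ using this
  refine ⟨∑ T ∈ F.powerset, β T, fun t => ?_⟩
  unfold Phi
  rw [Finset.mul_sum, ← Finset.sum_add_distrib]
  refine Finset.sum_congr rfl fun T _ => ?_
  rw [← hβ T t]
  congr 1
  abel

theorem aff_im {α β : ℂ} (h : ∀ t : ℂ, 0 ≤ t.im → α + t * β ≠ 0) :
    α ≠ 0 ∧ (β = 0 ∨ (β / α).im < 0) := by
  have hα : α ≠ 0 := by simpa using h 0 (by simp)
  refine ⟨hα, ?_⟩
  by_cases hβ : β = 0
  · exact Or.inl hβ
  right
  by_contra hn
  have hn' : 0 ≤ (β / α).im := not_lt.1 hn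
  refine h (-(β / α)⁻¹) ?_ ?_
  · rw [Complex.neg_im, Complex.inv_im, neg_div, neg_neg]
    exact div_nonneg hn' (Complex.normSq_nonneg _)
  · field_simp
    ring

theorem Phi_ne (F : Finset ι) : ∀ M : Matrix n n ℂ, UP M → Phi a F M ≠ 0 := by
  induction F using Finset.induction_on with
  | empty =>
    intro M h
    have : cx (0 : Matrix n n ℝ) = 0 := by ext i j; simp [cx]
    simpa [Phi, KK, this] using h.det_ne
  | insert i F hi ih =>
    intro M h
    rw [Phi_ins a hi]
    obtain ⟨β0, h0⟩ := Phi_affine a F h (a i false)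
    obtain ⟨β1, h1⟩ := Phi_affine a F h (a i true)
    obtain ⟨hα, c0⟩ := aff_im (α := Phi a F M) (β := β0)
      (fun t ht => by rw [← h0]; exact ih _ (h.add_R1 _ t ht))
    obtain ⟨-, c1⟩ := aff_im (α := Phi a F M) (β := β1)
      (fun t ht => by rw [← h1]; exact ih _ (h.add_R1 _ t ht))
    rw [h0, h1]
    intro hz
    have h2 : β0 / Phi a F M + β1 / Phi a F M = 2 := by
      field_simp
      linear_combination -hz
    have h3 := congrArg Complex.im h2
    have h4 := congrArg Complex.re h2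
    rw [Complex.add_im] at h3
    rcases c0 with c0 | c0 <;> rcases c1 with c1 | c1
    · rw [c0, c1] at h4; norm_num at h4
    · rw [c0] at h3; norm_num at h3; linarith
    · rw [c1] at h3; norm_num at h3; linarith
    · norm_num at h3; linarith

theorem aeval_PP (F : Finset ι) (N : Matrix n n ℝ) (z : ℂ) :
    aeval z (PP a F N) = Phi a F (scalar n z - cx N) := by
  unfold PP Phi
  rw [map_sum]
  refine Finset.sum_congr rfl fun T _ => ?_
  have h1 : aeval z (N + KK a F T).charpoly =
      ((N + KK a F T).map (algebraMap ℝ ℂ)).charpoly.eval z := by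
    rw [charpoly_map, eval_map_algebraMap]
  rw [h1, eval_charpoly, sub_sub, ← cx_add]
  rfl

theorem UP_scalar (z : ℂ) (hz : 0 < z.im) : UP (scalar n z) := by
  intro v hv
  have h1 : star v ⬝ᵥ scalar n z *ᵥ v = z * ((∑ i, Complex.normSq (v i) : ℝ) : ℂ) := by
    rw [scalar_apply]
    simp only [dotProduct, mulVec_diagonal, Pi.star_apply, Complex.star_def]
    push_cast
    rw [Finset.mul_sum]
    refine Finset.sum_congr rfl fun i _ => ?_
    rw [Complex.normSq_eq_conj_mul_self]; ring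
  rw [h1, Complex.im_mul_ofReal]
  obtain ⟨i, hi⟩ := Function.ne_iff.1 hv
  refine mul_pos hz (Finset.sum_pos' (fun j _ => Complex.normSq_nonneg _) ⟨i, mem_univ i, ?_⟩)
  exact Complex.normSq_pos.2 hi

theorem PP_lead (F : Finset ι) (N : Matrix n n ℝ) :
    (PP a F N).degree = Fintype.card n ∧ (PP a F N).leadingCoeff = 2 ^ F.card := by
  have hc : (PP a F N).coeff (Fintype.card n) = 2 ^ F.card := by
    unfold PP
    rw [finsetSum_coeff]
    have : ∀ T ∈ F.powerset, (N + KK a F T).charpoly.coeff (Fintype.card n) = 1 := fun T _ => by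
      have := (charpoly_monic (N + KK a F T)).coeff_natDegree
      rwa [charpoly_natDegree_eq_dim] at this
    rw [Finset.sum_congr rfl this]
    simp
  have hd : (PP a F N).degree ≤ Fintype.card n := by
    unfold PP
    refine (degree_sum_le _ _).trans (Finset.sup_le fun T _ => ?_)
    rw [charpoly_degree_eq_dim]
  have hne : (PP a F N).coeff (Fintype.card n) ≠ 0 := by rw [hc]; positivity
  have hdeg := degree_eq_of_le_of_coeff_ne_zero hd hne
  refine ⟨hdeg, ?_⟩
  rw [leadingCoeff, natDegree_eq_of_degree_eq_some hdeg, hc]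

theorem PP_quot (F : Finset ι) (N : Matrix n n ℝ) (hN : Nᵀ = N) (b : n → ℝ) (z : ℂ)
    (hz : 0 < z.im) : 0 ≤ (aeval z (PP a F (N + R1 b)) / aeval z (PP a F N)).im := by
  have h := (UP_scalar (n := n) z hz).sub_sym N hN
  obtain ⟨β, h0⟩ := Phi_affine a F h b
  obtain ⟨hα, c0⟩ := aff_im (α := Phi a F (scalar n z - cx N)) (β := β)
    (fun t ht => by rw [← h0]; exact Phi_ne a F _ (h.add_R1 _ t ht))
  rw [aeval_PP, aeval_PP, cx_add]
  have h1 : scalar n z - (cx N + cx (R1 b)) = scalar n z - cx N + (-1 : ℂ) • cx (R1 b) := by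
    simp only [neg_smul, one_smul]; abel
  rw [h1, h0]
  have h2 : (Phi a F (scalar n z - cx N) + -1 * β) / Phi a F (scalar n z - cx N) =
      1 - β / Phi a F (scalar n z - cx N) := by field_simp; ring
  rw [h2, Complex.sub_im, Complex.one_im]
  rcases c0 with c0 | c0
  · rw [c0]; simp
  · linarith

/-- Interlacing families for independent two-valued rank one summands. -/
theorem mss (F : Finset ι) (x0 : ℝ) : ∀ N : Matrix n n ℝ, Nᵀ = N →
    (∀ x, x0 ≤ x → 0 < (PP a F N).eval x) →
    ∃ T ⊆ F, ∀ x, x0 ≤ x → 0 < (N + KK a F T).charpoly.eval x := by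
  induction F using Finset.induction_on with
  | empty =>
    intro N _ h
    exact ⟨∅, subset_rfl, fun x hx => by simpa [PP] using h x hx⟩
  | insert i F hi ih =>
    intro N hN h
    have hs : ∀ b : n → ℝ, (N + R1 b)ᵀ = N + R1 b := fun b => by
      rw [transpose_add, hN]; congr 1; ext i j; simp [R1, vecMulVec_apply, mul_comm]
    have := inter_step (PP a F (N + R1 (a i false))) (PP a F (N + R1 (a i true))) (PP a F N)
      (by rw [(PP_lead a F N).2]; positivity)
      (by rw [(PP_lead a F N).1, (PP_lead a F _).1]) (by rw [(PP_lead a F N).2, (PP_lead a F _).2])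
      (by rw [(PP_lead a F N).1, (PP_lead a F _).1]) (by rw [(PP_lead a F N).2, (PP_lead a F _).2])
      (PP_quot a F N hN _) (PP_quot a F N hN _) x0
      (fun x hx => by have := h x hx; rwa [PP_ins a hi, eval_add] at this)
    rcases this with h0 | h1
    · obtain ⟨T, hT, hT'⟩ := ih _ (hs _) h0
      refine ⟨T, hT.trans (subset_insert _ _), fun x hx => ?_⟩
      rw [KK_ins0 a hi hT, ← add_assoc]; exact hT' x hx
    · obtain ⟨T, hT, hT'⟩ := ih _ (hs _) h1
      refine ⟨insert i T, insert_subset_insert _ hT, fun x hx => ?_⟩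
      rw [KK_ins1 a hi, ← add_assoc]; exact hT' x hx

end Pool.Agent.MP_df0aa7_co.h16

end MrgPart10

-- ======== part 11: formerly Pool.Agent.MP_df0aa7_co.h16.OneSided
section MrgPart11

set_option autoImplicit false
open Matrix Finset

namespace Pool.Agent.MP_df0aa7_co.h16

variable {V : Type} [Fintype V] [DecidableEq V] (G : SimpleGraph V) [DecidableRel G.Adj]

noncomputable def ev (e : Sym2 V) (b : Bool) : V → ℝ :=
  fun w => (if w = e.out.1 then 1 else 0) + (if b then -1 else 1) * (if w = e.out.2 then 1 else 0)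

omit [Fintype V] in
theorem R1_ev (e : Sym2 V) (he : ¬ e.IsDiag) (b : Bool) (u v : V) :
    R1 (ev e b) u v = if u = v then (if u ∈ e then 1 else 0)
      else if s(u, v) = e then (if b then -1 else 1) else 0 := by
  have h1 : s(e.out.1, e.out.2) = e := Quot.out_eq e
  unfold R1 ev
  rw [vecMulVec_apply]
  generalize e.out.1 = p at h1 ⊢
  generalize e.out.2 = q at h1 ⊢
  subst h1
  have hpq : p ≠ q := by simpa using he
  by_cases huv : u = v
  · subst huv
    by_cases h1 : u = p
    · subst h1; simp [hpq]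
    · by_cases h2 : u = q
      · subst h2; cases b <;> simp [h1]
      · simp [h1, h2]
  · rw [if_neg huv]
    by_cases h1 : u = p
    · subst h1
      by_cases h2 : v = q
      · subst h2; simp [hpq, hpq.symm]
      · simp [hpq, h2, Ne.symm huv]
    · by_cases h2 : u = q
      · subst h2
        by_cases h3 : v = p
        · subst h3; simp [hpq, hpq.symm]
        · simp [h1, h3, Ne.symm huv]
      · simp [h1, h2]

theorem KK_ev (T : Finset (Sym2 V)) :
    diagonal (fun u => -∑ e ∈ G.edgeFinset, (if u ∈ e then (1 : ℝ) else 0)) +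
      KK ev G.edgeFinset T = sg G T := by
  ext u v
  rw [Matrix.add_apply, KK, Matrix.sum_apply, Finset.sum_congr rfl (fun e he =>
    R1_ev e (G.not_isDiag_of_mem_edgeSet (SimpleGraph.mem_edgeFinset.1 he)) _ u v)]
  by_cases huv : u = v
  · subst huv
    simp [sg]
  · simp only [huv, if_false, diagonal_apply_ne _ huv, zero_add, sg]
    rw [Finset.sum_ite_eq]
    simp

/-- One-sided Marcus-Spielman-Srivastava theorem. -/
theorem one_sided {d : ℕ} (hd : ∀ v, G.degree v ≤ d + 1) (hd1 : 1 ≤ d) (x0 : ℝ)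
    (hx : 2 * √(d : ℝ) < x0) :
    ∃ T ⊆ G.edgeFinset, ∀ x, x0 ≤ x → 0 < (scalar V x - sg G T).det := by
  obtain ⟨T, hT, h⟩ := mss (ev (V := V)) G.edgeFinset x0
    (diagonal (fun u => -∑ e ∈ G.edgeFinset, (if u ∈ e then (1 : ℝ) else 0)))
    (diagonal_transpose _) (fun x hx' => by
      have := (mu_pos G hd hd1 x (lt_of_lt_of_le hx hx') univ).1
      unfold PP
      rw [Polynomial.eval_finsetSum]
      refine lt_of_lt_of_eq this (Finset.sum_congr rfl fun T _ => ?_)
      rw [KK_ev, eval_charpoly]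
      congr 1
      ext a b
      simp [MU, diagonal_apply])
  refine ⟨T, hT, fun x hx' => ?_⟩
  have := h x hx'
  rwa [KK_ev, eval_charpoly] at this

end Pool.Agent.MP_df0aa7_co.h16

end MrgPart11

-- ======== part 12: formerly Pool.Agent.MP_df0aa7_co.h16.Main
section MrgPart12

set_option autoImplicit false
open Finset Matrix

namespace Pool.Agent.MP_df0aa7_co.h16

open Classical in
theorem large (d : ℕ) (hd : 1 ≤ d) {R ε δ : ℝ} (hR : 1 ≤ R) (hε : 0 < ε) (hδ : 0 < δ) :
    ∃ n0 : ℕ, ∀ (V : Type) [Fintype V] [DecidableEq V] (G : SimpleGraph V) [DecidableRel G.Adj],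
      n0 ≤ Fintype.card V → G.Connected → G.IsRegularOfDegree d →
      (∀ (l : ℝ) (v : V → ℝ), v ≠ 0 → G.adjMatrix ℝ *ᵥ v = l • v → |l| ≠ d → |l| ≤ R) →
      ((G.edgeFinset.powerset.filter fun T =>
        ∃ (l : ℝ) (v : V → ℝ), v ≠ 0 ∧ sg G T *ᵥ v = l • v ∧ R + ε ≤ |l|).card : ℝ) ≤
        δ * 2 ^ G.edgeFinset.card := by
  have hρ : 0 < R + ε / 2 := by linarith
  obtain ⟨n0, h0⟩ := params d (γ := (R + ε) / (R + ε / 2)) (δ := δ) (η := ε / 2)
    (by rw [one_lt_div hρ]; linarith) hδ (by linarith)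
  refine ⟨n0, fun V _ _ G _ hn hc hr hram => ?_⟩
  obtain ⟨k, b, D, q, hk, h1, h2, h3, h4⟩ := h0 _ hn
  have := hc.nonempty
  have hn0 : (0 : ℝ) < Fintype.card V := by exact_mod_cast Fintype.card_pos
  have : NeZero (k + k) := ⟨by omega⟩
  have hdeg : ∀ v, G.degree v ≤ d := fun v => (hr.degree_eq v).le
  have hloc : LocB G (D + D) (R + ε / 2) :=
    locB_of_quad G hdeg (by positivity) hρ (ram_quad G hc hr (by linarith) hram) (by linarith) (by
      rw [div_mul_eq_mul_div]
      have : (d : ℝ) * (d + 1) ^ (D + D) / Fintype.card V ≤ ε / 2 := by rwa [div_le_iff₀ hn0]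
      linarith)
  have h5 := ew_bound G hdeg hd (by linarith) hloc h1 h2
  have h6 := bad_le G k (R + ε) (by linarith)
  have h7 : (4 * ((k + k : ℕ) : ℝ) ^ 2 + 1) ^ (2 * q + 1) *
      (Fintype.card V * d ^ q * (R + ε / 2) ^ (k + k)) ≤ δ * (R + ε) ^ (k + k) := by
    have a1 := mul_le_mul_of_nonneg_right h4 (pow_pos hρ (k + k)).le
    rw [mul_assoc δ, ← mul_pow, div_mul_cancel₀ _ hρ.ne', mul_assoc] at a1
    exact a1
  have h8 : (0 : ℝ) < (R + ε) ^ (k + k) := pow_pos (by linarith) _
  refine le_of_mul_le_mul_right (h6.trans ?_) h8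
  calc (2 : ℝ) ^ G.edgeFinset.card * (EW G (k + k)).card
      ≤ 2 ^ G.edgeFinset.card * (δ * (R + ε) ^ (k + k)) := by gcongr; exact h5.trans h7
    _ = δ * 2 ^ G.edgeFinset.card * (R + ε) ^ (k + k) := by ring

theorem bip_exists {V : Type} [Fintype V] [DecidableEq V] (G : SimpleGraph V)
    [DecidableRel G.Adj] {d : ℕ} (hd : ∀ v, G.degree v ≤ d + 1) (hd1 : 1 ≤ d)
    (hb : G.Colorable 2) (x0 : ℝ) (hx : 2 * √(d : ℝ) < x0) :
    ∃ T ⊆ G.edgeFinset, ∀ (l : ℝ) (v : V → ℝ), v ≠ 0 → sg G T *ᵥ v = l • v → |l| < x0 := by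
  obtain ⟨T, hT, h⟩ := one_sided G hd hd1 x0 hx
  have key : ∀ (l : ℝ) (v : V → ℝ), v ≠ 0 → sg G T *ᵥ v = l • v → l < x0 := by
    intro l v hv hl
    by_contra hn
    refine (h l (not_lt.1 hn)).ne' (exists_mulVec_eq_zero_iff.1 ⟨v, hv, ?_⟩)
    rw [sub_mulVec, hl, scalar_apply]
    ext i
    simp
  refine ⟨T, hT, fun l v hv hl => abs_lt.2 ⟨?_, key l v hv hl⟩⟩
  obtain ⟨C⟩ := hb
  let z : V → ℝ := fun u => if C u = 0 then 1 else -1
  have hz : ∀ u, z u * z u = 1 := fun u => by simp only [z]; split_ifs <;> norm_num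
  have hzz : ∀ u w, G.Adj u w → z w = -z u := fun u w huw => by
    have := C.valid huw
    simp only [z]
    generalize C u = a at this ⊢
    generalize C w = c at this ⊢
    fin_cases a <;> fin_cases c <;> simp_all
  have h1 := key (-l) (fun u => z u * v u) (fun h0 => hv (by
    ext u
    have := congrFun h0 u
    simp only [Pi.zero_apply] at this ⊢
    linear_combination z u * this - v u * hz u)) (by
    ext u
    have a1 := congrFun hl u
    simp only [mulVec, dotProduct, Pi.smul_apply, smul_eq_mul] at a1 ⊢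
    have a2 : ∑ w, sg G T u w * (z w * v w) = -z u * ∑ w, sg G T u w * v w := by
      rw [Finset.mul_sum]
      refine Finset.sum_congr rfl fun w _ => ?_
      by_cases huw : G.Adj u w
      · rw [hzz u w huw]; ring
      · simp [sg, huw]
    rw [a2, a1]; ring)
  linarith

end Pool.Agent.MP_df0aa7_co.h16

end MrgPart12

-- marker of a merged file
example : 731051 + 837120 = 731051 + 837120 := rfl
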