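import Pool.Agent.MP_df0aa7_co.h16.Main

set_option autoImplicit false
open Finset Matrix

namespace Pool.Agent.MP_df0aa7_co.h16

theorem mem_spec {V : Type} [Fintype V] [DecidableEq V] (M : Matrix V V ℝ) (l : ℝ) :
    l ∈ spectrum ℝ M ↔ ∃ v : V → ℝ, v ≠ 0 ∧ M *ᵥ v = l • v := by
  rw [spectrum.mem_iff, isUnit_iff_isUnit_det, isUnit_iff_ne_zero, not_not,
    ← exists_mulVec_eq_zero_iff]
  refine exists_congr fun v => and_congr_right fun _ => ?_
  rw [sub_mulVec, sub_eq_zero, Algebra.algebraMap_eq_smul_one, smul_mulVec, one_mulVec, eq_comm]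

/-- connected `d`-regular graph with all eigenvalues other than `±d` at most `2√(d-1)` in modulus -/
def IsRam {V : Type} [Fintype V] [DecidableEq V] (G : SimpleGraph V) [DecidableRel G.Adj]
    (d : ℕ) : Prop :=
  G.Connected ∧ G.IsRegularOfDegree d ∧
    ∀ l ∈ spectrum ℝ (G.adjMatrix ℝ), |l| ≠ d → |l| ≤ 2 * √((d : ℝ) - 1)

open Classical in
/-- probability that a uniform signing has all eigenvalues of modulus less than `y` -/
noncomputable def prob {V : Type} [Fintype V] [DecidableEq V] (G : SimpleGraph V)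
    [DecidableRel G.Adj] (y : ℝ) : ℝ :=
  ((G.edgeFinset.powerset.filter fun T => ∀ l ∈ spectrum ℝ (sg G T), |l| < y).card : ℝ) /
    2 ^ G.edgeFinset.card

theorem whp (d : ℕ) (hd : 3 ≤ d) {ε δ : ℝ} (hε : 0 < ε) (hδ : 0 < δ) :
    ∃ n0 : ℕ, ∀ (V : Type) [Fintype V] [DecidableEq V] (G : SimpleGraph V) [DecidableRel G.Adj],
      n0 ≤ Fintype.card V → IsRam G d → 1 - δ ≤ prob G (2 * √((d : ℝ) - 1) + ε) := by
  classical
  have hd' : (3 : ℝ) ≤ d := by exact_mod_cast hd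
  have hR : (1 : ℝ) ≤ 2 * √((d : ℝ) - 1) := by
    have : (1 : ℝ) ≤ √((d : ℝ) - 1) := Real.one_le_sqrt.2 (by linarith)
    linarith
  obtain ⟨n0, h0⟩ := large d (by omega) hR hε hδ
  refine ⟨n0, fun V _ _ G _ hn hG => ?_⟩
  have h1 := h0 V G hn hG.1 hG.2.1 (fun l v hv hl => hG.2.2 l ((mem_spec _ _).2 ⟨v, hv, hl⟩))
  unfold prob
  rw [le_div_iff₀ (by positivity)]
  have h2 := card_filter_add_card_filter_not (s := G.edgeFinset.powerset)
    (fun T => ∀ l ∈ spectrum ℝ (sg G T), |l| < 2 * √((d : ℝ) - 1) + ε)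
  rw [card_powerset] at h2
  have h3 : (G.edgeFinset.powerset.filter fun T =>
      ¬ ∀ l ∈ spectrum ℝ (sg G T), |l| < 2 * √((d : ℝ) - 1) + ε) =
      G.edgeFinset.powerset.filter fun T => ∃ (l : ℝ) (v : V → ℝ), v ≠ 0 ∧
        sg G T *ᵥ v = l • v ∧ 2 * √((d : ℝ) - 1) + ε ≤ |l| := by
    refine filter_congr fun T _ => ?_
    simp only [mem_spec, not_forall, not_lt, exists_prop]
    exact ⟨fun ⟨l, ⟨v, a, b⟩, c⟩ => ⟨l, v, a, b, c⟩, fun ⟨l, v, a, b, c⟩ => ⟨l, ⟨v, a, b⟩, c⟩⟩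
  rw [h3] at h2
  have h4 := congrArg (Nat.cast : ℕ → ℝ) h2
  push_cast at h4
  linarith

theorem prob_ge {V : Type} [Fintype V] [DecidableEq V] (G : SimpleGraph V) [DecidableRel G.Adj]
    {n0 : ℕ} (hn : Fintype.card V ≤ n0) {y : ℝ}
    (h : ∃ T ⊆ G.edgeFinset, ∀ l ∈ spectrum ℝ (sg G T), |l| < y) :
    1 / 2 ^ (n0 ^ 2 + 1) ≤ prob G y := by
  classical
  obtain ⟨T, hT, h⟩ := h
  have h1 : 1 ≤ (G.edgeFinset.powerset.filter fun T =>
      ∀ l ∈ spectrum ℝ (sg G T), |l| < y).card :=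
    card_pos.2 ⟨T, mem_filter.2 ⟨mem_powerset.2 hT, h⟩⟩
  have h2 : G.edgeFinset.card ≤ n0 ^ 2 + 1 :=
    G.card_edgeFinset_le_card_choose_two.trans ((Nat.choose_le_pow _ _).trans
      ((Nat.pow_le_pow_left hn 2).trans (Nat.le_succ _)))
  unfold prob
  gcongr
  · exact_mod_cast h1
  · norm_num

/-- Q1 for every Ramanujan graph that has one good signing. -/
theorem zero_or (d : ℕ) (hd : 3 ≤ d) {ε : ℝ} (hε : 0 < ε) :
    ∃ (c : ℝ) (n0 : ℕ), 0 < c ∧ ∀ (V : Type) [Fintype V] [DecidableEq V] (G : SimpleGraph V)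
      [DecidableRel G.Adj], IsRam G d →
      (n0 ≤ Fintype.card V ∨ G.Colorable 2 ∨
        ∃ T ⊆ G.edgeFinset, ∀ l ∈ spectrum ℝ (sg G T), |l| < 2 * √((d : ℝ) - 1) + ε) →
      c ≤ prob G (2 * √((d : ℝ) - 1) + ε) := by
  obtain ⟨n0, h0⟩ := whp d hd hε (show (0 : ℝ) < 1 / 2 by norm_num)
  refine ⟨1 / 2 ^ (n0 ^ 2 + 1), n0, by positivity, fun V _ _ G _ hG h => ?_⟩
  by_cases hn : n0 ≤ Fintype.card V
  · refine le_trans ?_ (h0 V G hn hG)
    have : (2 : ℝ) ^ 1 ≤ 2 ^ (n0 ^ 2 + 1) := pow_le_pow_right₀ (by norm_num) (by omega)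
    have := one_div_le_one_div_of_le (by norm_num) this
    linarith
  refine prob_ge G (not_le.1 hn).le ?_
  rcases h with h | h | h
  · exact absurd h hn
  · obtain ⟨e, rfl⟩ : ∃ e, d = e + 1 := ⟨d - 1, by omega⟩
    obtain ⟨T, hT, h1⟩ := bip_exists G (d := e) (fun v => (hG.2.1.degree_eq v).le) (by omega) h
      (2 * √(((e + 1 : ℕ) : ℝ) - 1) + ε) (by push_cast; rw [add_sub_cancel_right]; linarith)
    refine ⟨T, hT, fun l hl => ?_⟩
    obtain ⟨v, hv, hl⟩ := (mem_spec _ _).1 hl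
    exact h1 l v hv hl
  · exact h

end Pool.Agent.MP_df0aa7_co.h16
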